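import Pool.Agent.Helper75.Jen.Alg3
import Pool.Graph.R_seed8.H382P.LocExp

set_option autoImplicit false

open Polynomial Complex Filter Topology Metric

namespace Pool.Agent.Helper75.Jen

open H370 H370.Loc

/-- ratio of two values of a zero free function in a disc -/
lemma ratio_exp {g : ℂ → ℂ} {c : ℂ} {r ε : ℝ} (hg : DifferentiableOn ℂ g (ball c r))
    (hg0 : ∀ z ∈ ball c r, g z ≠ 0) (hε : ∀ z ∈ ball c r, ‖logDeriv g z‖ ≤ ε) {z w : ℂ}
    (hz : z ∈ ball c r) (hw : w ∈ ball c r) :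
    ∃ h : ℂ, g w = g z * cexp h ∧ ‖h‖ ≤ ε * ‖w - z‖ := by
  have hd : DifferentiableOn ℂ (logDeriv g) (ball c r) := by
    intro x hx
    have h1 : AnalyticAt ℂ g x := hg.analyticAt (isOpen_ball.mem_nhds hx)
    exact (h1.deriv.div h1 (hg0 x hx)).differentiableAt.differentiableWithinAt
  obtain ⟨h, hhc, hh⟩ := hd.isExactOn_ball.with_val_at c 0
  have hderiv : ∀ x ∈ ball c r, HasDerivAt (fun y => g y * cexp (-h y)) 0 x := by
    intro x hx
    have e1 : HasDerivAt g (deriv g x) x :=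
      (hg.analyticAt (isOpen_ball.mem_nhds hx)).differentiableAt.hasDerivAt
    have e2 : HasDerivAt (fun y => cexp (-h y)) (cexp (-h x) * (-(logDeriv g x))) x :=
      ((hh x hx).neg).cexp
    have e3 : HasDerivAt (fun y => g y * cexp (-h y))
        (deriv g x * cexp (-h x) + g x * (cexp (-h x) * (-(logDeriv g x)))) x := e1.mul e2
    have e4 : deriv g x * cexp (-h x) + g x * (cexp (-h x) * (-(logDeriv g x))) = 0 := by
      have := hg0 x hx
      rw [logDeriv_apply]
      field_simp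
      ring
    rwa [e4] at e3
  have hcv : Convex ℝ (ball c r) := convex_ball c r
  have hconst := hcv.is_const_of_fderivWithin_eq_zero (𝕜 := ℂ) (f := fun y => g y * cexp (-h y))
    (fun x hx => (hderiv x hx).differentiableAt.differentiableWithinAt)
    (fun x hx => by
      have h5 := (hderiv x hx).hasFDerivAt.hasFDerivWithinAt (s := ball c r)
      rw [h5.fderivWithin (isOpen_ball.uniqueDiffWithinAt hx)]
      ext; simp) hw hz
  refine ⟨h w - h z, ?_, ?_⟩
  · have e1 : g w = g w * cexp (-h w) * cexp (h w) := by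
      rw [mul_assoc, ← Complex.exp_add]; simp
    rw [e1, hconst, mul_assoc, ← Complex.exp_add]
    congr 2
    ring
  · exact hcv.norm_image_sub_le_of_norm_hasDerivWithin_le
      (fun x hx => (hh x hx).hasDerivWithinAt) hε hz hw

lemma Pr_eval (s : Multiset ℂ) (z : ℂ) : (Pr s).eval z = Pf s z := by
  induction s using Multiset.induction_on with
  | empty => simp [Pr_zero, Pf_zero]
  | cons r s ih => rw [Pr_cons, Pf_cons, eval_mul, ih]; simp

lemma Pf_conj (s : Multiset ℂ) (z : ℂ) :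
    starRingEnd ℂ (Pf s (starRingEnd ℂ z)) = Pf (s.map (starRingEnd ℂ)) z := by
  induction s using Multiset.induction_on with
  | empty => simp [Pf_zero]
  | cons r s ih =>
    rw [Pf_cons, Multiset.map_cons, Pf_cons, map_mul, ih]
    simp

lemma Pf_mem_zero {s : Multiset ℂ} {z : ℂ} (h : Pf s z = 0) : z ∈ s := by
  by_contra hcon
  exact Pf_ne_zero (s := s) (z := z) (fun ρ hρ he => hcon (he ▸ hρ)) h

/-- one approximating polynomial -/
lemma approx_one {F : ℂ → ℂ} (hF : Differentiable ℂ F)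
    (hsym : ∀ z, F (starRingEnd ℂ z) = starRingEnd ℂ (F z)) (h1 : 0 < (F 1).re)
    (hroots : ∀ z, F z = 0 → z ∈ KK) {r M : ℝ} (hr : 1 ≤ r) (hM : 1 ≤ M)
    (hb : ∀ z ∈ closedBall (1 : ℂ) (4 * r), ‖F z‖ ≤ M) :
    ∃ (p : ℂ[X]) (h : ℂ → ℂ), Good p ∧ (∀ z, p.eval z * h z = F z) ∧
      ∀ z ∈ ball (1 : ℂ) (r / 4), ∃ k : ℂ, h z = cexp k ∧
        ‖k‖ ≤ 8 * (Real.log M + |Real.log ‖F 1‖| + 1) / r * ‖z - 1‖ := by
  have hF1 : F 1 ≠ 0 := by intro h; rw [h] at h1; simp at h1
  have hr0 : 0 < r := by linarith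
  obtain ⟨s, g, hs, hg, hfg, hg0, -⟩ := extract (f := F) (c := 1) (r := r) (R := 4 * r) (M := M)
    hr0 (by linarith) hM (fun z _ => hF.analyticAt z) hF1 hb
  have hPs1 : Pf s 1 ≠ 0 := by
    intro h
    apply hF1
    rw [hfg 1, h, zero_mul]
  have h1mem : (1 : ℂ) ∈ closedBall (1 : ℂ) r := mem_closedBall_self hr0.le
  have hg1 : g 1 ≠ 0 := hg0 1 h1mem
  -- conjugation symmetry of the multiset
  have hsconj : s.map (starRingEnd ℂ) = s := by
    have hball : ∀ z : ℂ, z ∈ closedBall (1 : ℂ) r → starRingEnd ℂ z ∈ closedBall (1 : ℂ) r := by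
      intro z hz
      rw [mem_closedBall, dist_eq_norm] at hz ⊢
      have : starRingEnd ℂ z - 1 = starRingEnd ℂ (z - 1) := by simp
      rw [this, Complex.norm_conj]
      exact hz
    ext ρ
    by_cases hρ : ρ ∈ closedBall (1 : ℂ) r
    · have e1 : mult F ρ = s.count ρ := SP.LocAux.count_eq_mult (hF.analyticAt ρ)
        (hg ρ (closedBall_subset_closedBall (by linarith) hρ)) (hg0 ρ hρ) hfg
      have e2 : mult F ρ = (s.map (starRingEnd ℂ)).count ρ := by
        refine SP.LocAux.count_eq_mult (g := fun z => starRingEnd ℂ (g (starRingEnd ℂ z)))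
          (hF.analyticAt ρ) ?_ ?_ ?_
        · -- analytic
          have hcρ : starRingEnd ℂ ρ ∈ ball (1 : ℂ) (4 * r) := by
            have := hball ρ hρ
            rw [mem_closedBall] at this
            rw [mem_ball]
            linarith
          have hopen : IsOpen ((starRingEnd ℂ) ⁻¹' (ball (1 : ℂ) (4 * r))) :=
            isOpen_ball.preimage Complex.continuous_conj
          have hdo : DifferentiableOn ℂ (fun z => starRingEnd ℂ (g (starRingEnd ℂ z)))
              ((starRingEnd ℂ) ⁻¹' (ball (1 : ℂ) (4 * r))) := by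
            intro z hz
            have h2 : DifferentiableAt ℂ g (starRingEnd ℂ z) :=
              (hg _ (ball_subset_closedBall hz)).differentiableAt
            have h3 := h2.conj_conj
            rw [Complex.conj_conj] at h3
            exact h3.differentiableWithinAt
          exact hdo.analyticAt (hopen.mem_nhds hcρ)
        · intro h
          rw [map_eq_zero] at h
          exact hg0 _ (hball ρ hρ) h
        · intro z
          have h2 := hfg (starRingEnd ℂ z)
          rw [hsym] at h2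
          have h3 := congrArg (starRingEnd ℂ) h2
          rw [Complex.conj_conj, map_mul, Pf_conj] at h3
          exact h3
      rw [← e2, e1]
    · have e1 : s.count ρ = 0 := Multiset.count_eq_zero.2 fun h => hρ (hs ρ h).1
      have e2 : (s.map (starRingEnd ℂ)).count ρ = 0 := by
        refine Multiset.count_eq_zero.2 fun h => ?_
        obtain ⟨a, ha, rfl⟩ := Multiset.mem_map.1 h
        exact hρ (hball a (hs a ha).1)
      rw [e1, e2]
  -- bound for g
  have hgb : ∀ w ∈ closedBall (1 : ℂ) r, ‖g w‖ ≤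
      Real.exp (Real.log M + |Real.log ‖F 1‖|) * ‖g 1‖ := by
    set n := Multiset.card s with hn
    have hF1n : 0 < ‖F 1‖ := norm_pos_iff.2 hF1
    have hgc : ‖F 1‖ / r ^ n ≤ ‖g 1‖ := by
      rw [div_le_iff₀ (by positivity)]
      have h2 : ‖Pf s 1‖ ≤ r ^ n := Pf_norm_le fun ρ hρ => by
        have h3 := (hs ρ hρ).1
        rw [mem_closedBall, dist_eq_norm, norm_sub_rev] at h3
        exact h3
      calc ‖F 1‖ = ‖g 1‖ * ‖Pf s 1‖ := by rw [hfg 1, norm_mul, mul_comm]
        _ ≤ ‖g 1‖ * r ^ n := mul_le_mul_of_nonneg_left h2 (norm_nonneg _)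
    have hsph : ∀ w ∈ sphere (1 : ℂ) (3 * r), ‖g w‖ ≤ M / r ^ n := by
      intro w hw
      have h2 : r ^ n ≤ ‖Pf s w‖ := Pf_norm_ge hr0.le fun ρ hρ => by
        have h2 := (hs ρ hρ).1
        rw [mem_closedBall, dist_eq_norm] at h2
        rw [mem_sphere, dist_eq_norm] at hw
        have h3 : ‖w - 1‖ ≤ ‖w - ρ‖ + ‖ρ - 1‖ := by
          calc ‖w - 1‖ = ‖(w - ρ) + (ρ - 1)‖ := by congr 1; ring
            _ ≤ _ := norm_add_le _ _
        linarith
      rw [le_div_iff₀ (by positivity)]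
      calc ‖g w‖ * r ^ n ≤ ‖g w‖ * ‖Pf s w‖ := mul_le_mul_of_nonneg_left h2 (norm_nonneg _)
        _ = ‖F w‖ := by rw [hfg w, norm_mul, mul_comm]
        _ ≤ M := hb w (by
            rw [mem_closedBall]; rw [mem_sphere] at hw; linarith)
    have hball3 : ∀ w ∈ closedBall (1 : ℂ) (3 * r), ‖g w‖ ≤ M / r ^ n := by
      intro w hw
      refine Complex.norm_le_of_forall_mem_frontier_norm_le (U := ball (1 : ℂ) (3 * r))
        isBounded_ball ?_ ?_ ?_
      · apply DifferentiableOn.diffContOnCl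
        rw [closure_ball _ (by linarith)]
        intro x hx
        exact (hg x (closedBall_subset_closedBall (by linarith) hx)).differentiableAt.differentiableWithinAt
      · intro x hx
        rw [frontier_ball _ (by linarith)] at hx
        exact hsph x hx
      · rwa [closure_ball _ (by linarith)]
    intro w hw
    refine (hball3 w (closedBall_subset_closedBall (by linarith) hw)).trans ?_
    have h5 : M ≤ Real.exp (Real.log M + |Real.log ‖F 1‖|) * ‖F 1‖ := by
      rw [Real.exp_add, Real.exp_log (by linarith), mul_assoc]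
      have h6 : 1 ≤ Real.exp |Real.log ‖F 1‖| * ‖F 1‖ := by
        have h7 : ‖F 1‖ = Real.exp (Real.log ‖F 1‖) := (Real.exp_log hF1n).symm
        have h8 : Real.exp |Real.log ‖F 1‖| * ‖F 1‖ =
            Real.exp (|Real.log ‖F 1‖| + Real.log ‖F 1‖) := by
          rw [Real.exp_add, ← h7]
        rw [h8]
        exact Real.one_le_exp (by linarith [neg_abs_le (Real.log ‖F 1‖)])
      nlinarith
    calc M / r ^ n ≤ Real.exp (Real.log M + |Real.log ‖F 1‖|) * ‖F 1‖ / r ^ n := by gcongr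
      _ = Real.exp (Real.log M + |Real.log ‖F 1‖|) * (‖F 1‖ / r ^ n) := by ring
      _ ≤ _ := by gcongr
  have hB0 : 0 ≤ Real.log M + |Real.log ‖F 1‖| := by
    have := Real.log_nonneg hM
    positivity
  have hlog : ∀ z ∈ closedBall (1 : ℂ) (r / 4), ‖logDeriv g z‖ ≤
      8 * (Real.log M + |Real.log ‖F 1‖| + 1) / r := by
    intro z hz
    have := logDeriv_zero_free (g := g) (c := 1) (r := r) (r1 := r / 2) (r2 := r / 4)
      (B := Real.log M + |Real.log ‖F 1‖|) (by linarith) (by linarith) (by linarith) hB0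
      (hg.mono (closedBall_subset_closedBall (by linarith))) hg0 hgb hz
    refine this.trans (le_of_eq ?_)
    field_simp
    ring
  have hgd : DifferentiableOn ℂ g (ball (1 : ℂ) (r / 4)) := fun x hx =>
    (hg x (closedBall_subset_closedBall (by linarith) (ball_subset_closedBall hx))).differentiableAt.differentiableWithinAt
  have hgne : ∀ x ∈ ball (1 : ℂ) (r / 4), g x ≠ 0 := fun x hx =>
    hg0 x (closedBall_subset_closedBall (by linarith) (ball_subset_closedBall hx))
  refine ⟨C (F 1 / Pf s 1) * Pr s, fun z => g z / g 1, ⟨?_, ?_, ?_⟩, ?_, ?_⟩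
  · intro z
    simp only [eval_mul, eval_C, Pr_eval, map_mul]
    have e1 : Pf s (starRingEnd ℂ z) = starRingEnd ℂ (Pf s z) := by
      have := Pf_conj s (starRingEnd ℂ z)
      rw [Complex.conj_conj, hsconj] at this
      exact this.symm
    have e2 : starRingEnd ℂ (F 1 / Pf s 1) = F 1 / Pf s 1 := by
      have h3 : starRingEnd ℂ (F 1) = F 1 := by
        have := hsym 1
        rw [map_one] at this
        exact this.symm
      have h4 : starRingEnd ℂ (Pf s 1) = Pf s 1 := by
        have := Pf_conj s 1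
        rw [map_one, hsconj] at this
        exact this
      rw [map_div₀, h3, h4]
    rw [e1, e2]
  · intro z hz
    rw [eval_mul, eval_C, Pr_eval] at hz
    rcases mul_eq_zero.1 hz with h | h
    · exact absurd h (div_ne_zero hF1 hPs1)
    · exact hroots z (hs z (Pf_mem_zero h)).2
  · rw [eval_mul, eval_C, Pr_eval, div_mul_cancel₀ _ hPs1]
    exact h1
  · intro z
    rw [eval_mul, eval_C, Pr_eval, hfg z]
    have h3 : F 1 = Pf s 1 * g 1 := hfg 1
    rw [h3]
    field_simp
  · intro z hz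
    obtain ⟨k, hk, hkn⟩ := ratio_exp hgd hgne (fun x hx => hlog x (ball_subset_closedBall hx))
      (mem_ball_self (by linarith)) hz
    refine ⟨k, ?_, hkn⟩
    show g z / g 1 = _
    rw [hk]
    field_simp

lemma eps_tendsto (C D : ℝ) : Tendsto (fun N : ℕ => 8 * (C * (6 * ((N : ℝ) + 1)) ^ (3 / 5 : ℝ) + D + 1) /
    ((N : ℝ) + 1)) atTop (𝓝 0) := by
  have h1 : Tendsto (fun N : ℕ => ((N : ℝ) + 1)) atTop atTop :=
    tendsto_atTop_add_const_right _ _ tendsto_natCast_atTop_atTop
  have h2 : Tendsto (fun N : ℕ => ((N : ℝ) + 1) ^ (-(2 / 5 : ℝ))) atTop (𝓝 0) :=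
    (tendsto_rpow_neg_atTop (by norm_num)).comp h1
  have h3 : Tendsto (fun N : ℕ => ((N : ℝ) + 1)⁻¹) atTop (𝓝 0) := tendsto_inv_atTop_zero.comp h1
  have h4 := (h2.const_mul (8 * C * 6 ^ (3 / 5 : ℝ))).add (h3.const_mul (8 * (D + 1)))
  rw [mul_zero, mul_zero, add_zero] at h4
  refine h4.congr fun N => ?_
  have hN : (0 : ℝ) < (N : ℝ) + 1 := by positivity
  rw [Real.mul_rpow (by norm_num) hN.le]
  have e : ((N : ℝ) + 1) ^ (-(2 / 5 : ℝ)) = ((N : ℝ) + 1) ^ (3 / 5 : ℝ) / ((N : ℝ) + 1) := by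
    rw [show (-(2 / 5 : ℝ)) = 3 / 5 - 1 by norm_num, Real.rpow_sub_one hN.ne']
  rw [e]
  field_simp
  ring

/-- approximation by polynomials with zeros in the parabolic region -/
theorem approx {F : ℂ → ℂ} (hF : Differentiable ℂ F)
    (hsym : ∀ z, F (starRingEnd ℂ z) = starRingEnd ℂ (F z)) (h1 : 0 < (F 1).re)
    (hroots : ∀ z, F z = 0 → z ∈ KK) {C : ℝ} (hC : 0 ≤ C)
    (hgr : ∀ z, ‖F z‖ ≤ Real.exp (C * (1 + ‖z‖) ^ (3 / 5 : ℝ))) :
    ∃ P : ℕ → ℂ[X], (∀ N, Good (P N)) ∧
      TendstoLocallyUniformlyOn (fun N z => (P N).eval z) F atTop Set.univ := by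
  have hstep : ∀ N : ℕ, ∃ (p : ℂ[X]) (h : ℂ → ℂ), Good p ∧ (∀ z, p.eval z * h z = F z) ∧
      ∀ z ∈ ball (1 : ℂ) (((N : ℝ) + 1) / 4), ∃ k : ℂ, h z = cexp k ∧
        ‖k‖ ≤ 8 * (C * (6 * ((N : ℝ) + 1)) ^ (3 / 5 : ℝ) + |Real.log ‖F 1‖| + 1) / ((N : ℝ) + 1)
          * ‖z - 1‖ := by
    intro N
    have hN : (0 : ℝ) ≤ N := Nat.cast_nonneg N
    have hexp : 0 ≤ C * (6 * ((N : ℝ) + 1)) ^ (3 / 5 : ℝ) := by positivity
    have := approx_one hF hsym h1 hroots (r := (N : ℝ) + 1)
      (M := Real.exp (C * (6 * ((N : ℝ) + 1)) ^ (3 / 5 : ℝ))) (by linarith)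
      (Real.one_le_exp hexp) (fun z hz => by
        refine (hgr z).trans (Real.exp_le_exp.2 ?_)
        refine mul_le_mul_of_nonneg_left ?_ hC
        refine Real.rpow_le_rpow (by positivity) ?_ (by norm_num)
        rw [mem_closedBall, dist_eq_norm] at hz
        have : ‖z‖ ≤ ‖z - 1‖ + 1 := by
          calc ‖z‖ = ‖(z - 1) + 1‖ := by congr 1; ring
            _ ≤ ‖z - 1‖ + ‖(1 : ℂ)‖ := norm_add_le _ _
            _ = _ := by simp
        linarith)
    rwa [Real.log_exp] at this
  choose P h hgood hPh hk using hstep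
  refine ⟨P, hgood, ?_⟩
  rw [tendstoLocallyUniformlyOn_iff_forall_isCompact isOpen_univ]
  intro K _ hK
  rw [Metric.tendstoUniformlyOn_iff]
  intro ε hε
  -- K is bounded
  obtain ⟨R, hR⟩ := hK.isBounded.subset_closedBall (1 : ℂ)
  have hFc : ContinuousOn F K := hF.continuous.continuousOn
  obtain ⟨B, hB⟩ := hK.exists_bound_of_continuousOn hFc
  set eN : ℕ → ℝ := fun N => 8 * (C * (6 * ((N : ℝ) + 1)) ^ (3 / 5 : ℝ) + |Real.log ‖F 1‖| + 1) /
    ((N : ℝ) + 1) with heN
  have hlim : Tendsto (fun N => (|B| + 1) * (eN N * (|R| + 1) * 2)) atTop (𝓝 0) := by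
    have := ((eps_tendsto C |Real.log ‖F 1‖|).mul_const (|R| + 1)).mul_const 2
    have h3 := this.const_mul (|B| + 1)
    simpa using h3
  have hlim2 : Tendsto (fun N => eN N * (|R| + 1)) atTop (𝓝 0) := by
    have := ((eps_tendsto C |Real.log ‖F 1‖|).mul_const (|R| + 1))
    simpa using this
  have hN1 : ∀ᶠ N : ℕ in atTop, 4 * (|R| + 1) < (N : ℝ) + 1 := by
    have : Tendsto (fun N : ℕ => ((N : ℝ) + 1)) atTop atTop :=
      tendsto_atTop_add_const_right _ _ tendsto_natCast_atTop_atTop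
    exact this.eventually_gt_atTop _
  filter_upwards [hlim.eventually_lt_const hε, hlim2.eventually_lt_const (show (0 : ℝ) < 1 / 2 by norm_num),
    hN1] with N a1 a2 a3
  intro z hz
  have hzR : ‖z - 1‖ ≤ |R| + 1 := by
    have := hR hz
    rw [mem_closedBall, dist_eq_norm] at this
    linarith [le_abs_self R]
  obtain ⟨k, hk1, hk2⟩ := hk N z (by
    rw [mem_ball, dist_eq_norm]
    linarith)
  have heN0 : 0 ≤ eN N := by rw [heN]; positivity
  have hkb : ‖k‖ ≤ eN N * (|R| + 1) := hk2.trans (mul_le_mul_of_nonneg_left hzR heN0)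
  have hk12 : ‖k‖ ≤ 1 := by linarith
  have hP : (P N).eval z = F z * cexp (-k) := by
    rw [← hPh N z, hk1, mul_assoc, ← Complex.exp_add]
    simp
  have h5 : ‖cexp (-k) - 1‖ ≤ 2 * ‖k‖ := by
    have := Complex.norm_exp_sub_one_le (x := -k) (by rw [norm_neg]; exact hk12)
    rwa [norm_neg] at this
  rw [dist_eq_norm, hP]
  have e : F z - F z * cexp (-k) = -(F z * (cexp (-k) - 1)) := by ring
  rw [e, norm_neg, norm_mul]
  calc ‖F z‖ * ‖cexp (-k) - 1‖ ≤ (|B| + 1) * (eN N * (|R| + 1) * 2) := by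
        refine mul_le_mul ?_ ?_ (norm_nonneg _) (by positivity)
        · have := hB z hz
          linarith [le_abs_self B]
        · linarith
    _ < ε := a1

end Pool.Agent.Helper75.Jen
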