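import Pool.Agent.Helper75.Jen.Ver
import Pool.Agent.Helper75.Jen.Sad

set_option autoImplicit false
set_option maxHeartbeats 1000000

open Complex Filter Topology Metric

namespace Pool.Agent.Helper75.Jen

/-- the comparison function in the squared variable -/
noncomputable def Gt (u : ℂ) : ℂ := Gx (wf u)

/-- the bound for the logarithmic derivative of `Gx`, with a named constant -/
def LB (C1 : ℝ) : Prop := 1 ≤ C1 ∧ ∀ w : ℂ, 4 ≤ w.im → |w.re| ≤ w.im / 2 →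
    Gx w ≠ 0 ∧ DifferentiableAt ℂ Gx w ∧
    ‖logDeriv Gx w - ((1 / 2 * Real.log w.im : ℝ) : ℂ)‖ ≤ C1

structure Par (C1 τ : ℝ) (m : ℕ) : Prop where
  m9 : (10 : ℝ) ^ 9 ≤ m
  mt : 10 ^ 7 * (m : ℝ) ≤ τ
  lt : 1000 * C1 ≤ Real.log τ
  lm : 2000 * Real.log τ ≤ m

variable {C1 τ : ℝ} {m : ℕ}

lemma Par.tau (h : Par C1 τ m) : 10 ^ 16 ≤ τ := by
  have := h.m9; have := h.mt
  linarith

lemma log_near {τ a : ℝ} (hτ : 0 < τ) (h1 : 86 / 100 * τ ≤ a) (h2 : a ≤ 114 / 100 * τ) :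
    |Real.log a - Real.log τ| ≤ 1 / 5 := by
  have ha : 0 < a := by nlinarith
  rw [abs_le]
  constructor
  · have h3 := Real.log_le_sub_one_of_pos (div_pos hτ ha)
    rw [Real.log_div hτ.ne' ha.ne'] at h3
    have : τ / a ≤ 6 / 5 := by rw [div_le_iff₀ ha]; linarith
    linarith
  · have h3 := Real.log_le_sub_one_of_pos (div_pos ha hτ)
    rw [Real.log_div ha.ne' hτ.ne'] at h3
    have : a / τ ≤ 6 / 5 := by rw [div_le_iff₀ hτ]; linarith
    linarith

lemma Gt_facts (hC : LB C1) (hτ : 10 ^ 16 ≤ τ) {u : ℂ} (hu : ‖u - (-(τ ^ 2) : ℝ)‖ < τ ^ 2 / 4) :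
    Gt u ≠ 0 ∧ DifferentiableAt ℂ Gt u ∧ logDeriv Gt u = logDeriv Gx (wf u) / (2 * wf u) ∧
      ‖logDeriv Gx (wf u) - ((1 / 2 * Real.log τ : ℝ) : ℂ)‖ ≤ C1 + 1 / 10 := by
  have hτ0 : 0 < τ := by linarith
  obtain ⟨h1, h2, h3, h4, h5⟩ := wf_geom hτ0 hu
  obtain ⟨g1, g2, g3⟩ := hC.2 (wf u) (by linarith) (by linarith)
  refine ⟨g1, ?_, ?_, ?_⟩
  · exact g2.comp u (wf_hasDeriv h1).differentiableAt
  · rw [logDeriv_apply, logDeriv_apply]
    have h6 : HasDerivAt Gt (deriv Gx (wf u) * (1 / (2 * wf u))) u :=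
      g2.hasDerivAt.comp u (wf_hasDeriv h1)
    rw [h6.deriv, Gt]
    have hw0 : wf u ≠ 0 := by
      intro h
      rw [h] at h2
      simp at h2
      linarith
    field_simp
  · have e : logDeriv Gx (wf u) - ((1 / 2 * Real.log τ : ℝ) : ℂ) =
        (logDeriv Gx (wf u) - ((1 / 2 * Real.log (wf u).im : ℝ) : ℂ)) +
          ((1 / 2 * (Real.log (wf u).im - Real.log τ) : ℝ) : ℂ) := by push_cast; ring
    rw [e]
    refine (norm_add_le _ _).trans (add_le_add g3 ?_)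
    rw [Complex.norm_real, Real.norm_eq_abs, abs_mul]
    have := log_near hτ0 h2 h3
    rw [abs_of_pos (by norm_num : (0 : ℝ) < 1 / 2)]
    linarith

lemma Gt_upper (hC : LB C1) (hτ : 10 ^ 16 ≤ τ) (hl : 1000 * C1 ≤ Real.log τ) {u : ℂ}
    (hu : ‖u - (-(τ ^ 2) : ℝ)‖ < τ ^ 2 / 4) : ‖logDeriv Gt u‖ ≤ Real.log τ / τ := by
  have hτ0 : 0 < τ := by linarith
  have hC1 := hC.1
  obtain ⟨h1, h2, h3, h4, h5⟩ := wf_geom hτ0 hu
  obtain ⟨g1, g2, g3, g4⟩ := Gt_facts hC hτ hu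
  have hl0 : 0 < Real.log τ := by linarith
  have hwn : 86 / 100 * τ ≤ ‖wf u‖ := h2.trans ((le_abs_self _).trans (abs_im_le_norm _))
  have hnum : ‖logDeriv Gx (wf u)‖ ≤ 1 / 2 * Real.log τ + (C1 + 1 / 10) := by
    have e : logDeriv Gx (wf u) = ((1 / 2 * Real.log τ : ℝ) : ℂ) +
      (logDeriv Gx (wf u) - ((1 / 2 * Real.log τ : ℝ) : ℂ)) := by ring
    rw [e]
    refine (norm_add_le _ _).trans (add_le_add ?_ g4)
    rw [Complex.norm_real, Real.norm_of_nonneg (by positivity)]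
  have hwpos : 0 < 2 * ‖wf u‖ := by linarith
  rw [g3, norm_div, norm_mul, Complex.norm_ofNat, div_le_div_iff₀ hwpos hτ0]
  calc ‖logDeriv Gx (wf u)‖ * τ ≤ (1 / 2 * Real.log τ + (C1 + 1 / 10)) * τ := by gcongr
    _ ≤ Real.log τ * (2 * (86 / 100 * τ)) := by nlinarith
    _ ≤ Real.log τ * (2 * ‖wf u‖) := by gcongr

lemma Gt_diffOn (hC : LB C1) (hτ : 10 ^ 16 ≤ τ) :
    DifferentiableOn ℂ Gt (ball ((-(τ ^ 2) : ℝ) : ℂ) (τ ^ 2 / 4)) := by
  intro u hu
  rw [mem_ball, dist_eq_norm] at hu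
  exact (Gt_facts hC hτ hu).2.1.differentiableWithinAt

lemma logDeriv_Gt_diffOn (hC : LB C1) (hτ : 10 ^ 16 ≤ τ) :
    DifferentiableOn ℂ (logDeriv Gt) (ball ((-(τ ^ 2) : ℝ) : ℂ) (τ ^ 2 / 4)) := by
  intro x hx
  have h1 : AnalyticAt ℂ Gt x := (Gt_diffOn hC hτ).analyticAt (isOpen_ball.mem_nhds hx)
  have h0 : Gt x ≠ 0 := by
    rw [mem_ball, dist_eq_norm] at hx
    exact (Gt_facts hC hτ hx).1
  exact (h1.deriv.div h1 h0).differentiableAt.differentiableWithinAt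

lemma Gt_lip (hC : LB C1) (hτ : 10 ^ 16 ≤ τ) (hl : 1000 * C1 ≤ Real.log τ) :
    ∀ u ∈ ball ((-(τ ^ 2) : ℝ) : ℂ) (τ ^ 2 / 8), ∀ u' ∈ ball ((-(τ ^ 2) : ℝ) : ℂ) (τ ^ 2 / 8),
      ‖logDeriv Gt u - logDeriv Gt u'‖ ≤ 8 * Real.log τ / τ ^ 3 * ‖u - u'‖ := by
  have hτ0 : 0 < τ := by linarith
  have hd := logDeriv_Gt_diffOn hC hτ
  have hsub : ∀ c ∈ ball ((-(τ ^ 2) : ℝ) : ℂ) (τ ^ 2 / 8), closedBall c (τ ^ 2 / 8) ⊆
      ball ((-(τ ^ 2) : ℝ) : ℂ) (τ ^ 2 / 4) := by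
    intro c hc z hz
    rw [mem_ball] at hc ⊢
    rw [mem_closedBall] at hz
    have := dist_triangle z c ((-(τ ^ 2) : ℝ) : ℂ)
    linarith
  have hder : ∀ c ∈ ball ((-(τ ^ 2) : ℝ) : ℂ) (τ ^ 2 / 8),
      ‖deriv (logDeriv Gt) c‖ ≤ 8 * Real.log τ / τ ^ 3 := by
    intro c hc
    have hR : 0 < τ ^ 2 / 8 := by positivity
    have h1 : DiffContOnCl ℂ (logDeriv Gt) (ball c (τ ^ 2 / 8)) :=
      (hd.mono (hsub c hc)).diffContOnCl_ball subset_rfl
    have h2 := Complex.norm_deriv_le_of_forall_mem_sphere_norm_le hR h1 (C := Real.log τ / τ)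
      (fun z hz => by
        have h3 := hsub c hc (sphere_subset_closedBall hz)
        rw [mem_ball, dist_eq_norm] at h3
        exact Gt_upper hC hτ hl h3)
    refine h2.trans (le_of_eq ?_)
    field_simp
  intro u hu u' hu'
  exact (convex_ball _ _).norm_image_sub_le_of_norm_deriv_le
    (fun x hx => (hd.differentiableAt (isOpen_ball.mem_nhds (ball_subset_ball (by nlinarith) hx))))
    hder hu' hu

lemma Gt_dir (hC : LB C1) (hτ : 10 ^ 16 ≤ τ) (hl : 1000 * C1 ≤ Real.log τ) {u : ℂ}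
    (hu : ‖u - (-(τ ^ 2) : ℝ)‖ ≤ τ ^ 2 / 800) :
    ‖logDeriv Gt u * (4 * I * τ / Real.log τ) - 1‖ ≤ 1 / 100 := by
  have hτ0 : 0 < τ := by linarith
  have hC1 := hC.1
  have hu' : ‖u - (-(τ ^ 2) : ℝ)‖ < τ ^ 2 / 4 := by
    refine lt_of_le_of_lt hu ?_
    have : 0 < τ ^ 2 := by positivity
    linarith
  obtain ⟨h1, h2, h3, h4, h5⟩ := wf_geom hτ0 hu'
  obtain ⟨g1, g2, g3, g4⟩ := Gt_facts hC hτ hu'
  have hl0 : 0 < Real.log τ := by linarith
  set l := Real.log τ with hldef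
  have hlne : (l : ℂ) ≠ 0 := by exact_mod_cast hl0.ne'
  have hw0 : wf u ≠ 0 := by
    intro h
    rw [h] at h2
    simp at h2
    linarith
  have hwn : 86 / 100 * τ ≤ ‖wf u‖ := h2.trans ((le_abs_self _).trans (abs_im_le_norm _))
  -- the two factors
  have f1 : ‖logDeriv Gx (wf u) * (2 / l) - 1‖ ≤ 1 / 400 := by
    have e : logDeriv Gx (wf u) * (2 / l) - 1 =
        (logDeriv Gx (wf u) - ((1 / 2 * l : ℝ) : ℂ)) * (2 / l) := by
      push_cast
      field_simp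
    rw [e, norm_mul, norm_div, Complex.norm_ofNat, Complex.norm_real, Real.norm_of_nonneg hl0.le]
    calc ‖logDeriv Gx (wf u) - ((1 / 2 * l : ℝ) : ℂ)‖ * (2 / l) ≤ (C1 + 1 / 10) * (2 / l) := by
          gcongr
      _ ≤ 1 / 400 := by
          rw [mul_div_assoc', div_le_iff₀ hl0]
          linarith
  have f2 : ‖I * τ / wf u - 1‖ ≤ 1 / 400 := by
    have e : I * τ / wf u - 1 = (I * τ - wf u) / wf u := by field_simp
    rw [e, norm_div, div_le_iff₀ (norm_pos_iff.2 hw0)]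
    have e2 : (I * τ - wf u) * (wf u + I * τ) = -(u - (-(τ ^ 2) : ℝ)) := by
      have := wf_sq u
      push_cast
      linear_combination (-1 : ℂ) * this + (τ : ℂ) ^ 2 * I_sq
    have e3 := congrArg (fun x => ‖x‖) e2
    simp only [norm_mul, norm_neg] at e3
    have e4 : 18 / 10 * τ ≤ ‖wf u + I * τ‖ := by
      refine le_trans ?_ ((le_abs_self _).trans (abs_im_le_norm _))
      simp only [add_im, mul_im, I_re, I_im, ofReal_re, ofReal_im]
      linarith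
    have e5 : ‖I * τ - wf u‖ * (18 / 10 * τ) ≤ τ ^ 2 / 800 := by
      calc ‖I * τ - wf u‖ * (18 / 10 * τ) ≤ ‖I * τ - wf u‖ * ‖wf u + I * τ‖ := by gcongr
        _ = ‖u - (-(τ ^ 2) : ℝ)‖ := e3
        _ ≤ _ := hu
    have e6 : ‖I * τ - wf u‖ ≤ τ / 1440 := by
      have : ‖I * τ - wf u‖ * (18 / 10 * τ) ≤ (τ / 1440) * (18 / 10 * τ) := by
        refine e5.trans (le_of_eq ?_)
        ring
      exact le_of_mul_le_mul_right this (by positivity)
    linarith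
  have e : logDeriv Gt u * (4 * I * τ / l) - 1 =
      (logDeriv Gx (wf u) * (2 / l) - 1) * (I * τ / wf u - 1) +
        (logDeriv Gx (wf u) * (2 / l) - 1) + (I * τ / wf u - 1) := by
    rw [g3]
    field_simp
    ring
  rw [e]
  refine (norm_add_le _ _).trans ?_
  have n1 := norm_add_le ((logDeriv Gx (wf u) * (2 / l) - 1) * (I * τ / wf u - 1))
    (logDeriv Gx (wf u) * (2 / l) - 1)
  rw [norm_mul] at n1
  have n2 : ‖logDeriv Gx (wf u) * (2 / l) - 1‖ * ‖I * τ / wf u - 1‖ ≤ 1 / 400 * (1 / 400) := by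
    gcongr
  linarith

/-- the saddle point -/
lemma exists_saddle (hC : LB C1) (h : Par C1 τ m) :
    ∃ v : ℂ, v * logDeriv Gt (((-(τ ^ 2) : ℝ) : ℂ) + v) = m ∧
      m * τ / Real.log τ ≤ ‖v‖ ∧ ‖v‖ ≤ 8 * m * τ / Real.log τ ∧ 98 / 100 * ‖v‖ ≤ v.im := by
  have hτ := h.tau
  have hτ0 : 0 < τ := by linarith
  have hC1 := hC.1
  have hl := h.lt
  have hl0 : 0 < Real.log τ := by linarith
  have hl1 : 1000 ≤ Real.log τ := by linarith
  have hm9 := h.m9
  have hm0 : (0 : ℝ) < m := by linarith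
  have hmt := h.mt
  set l := Real.log τ with hldef
  set R0 : ℝ := 8 * m * τ / l with hR0
  have hR0pos : 0 ≤ R0 := by positivity
  have hlτ : 10 ^ 10 * (m : ℝ) ≤ l * τ := by nlinarith
  have hR0le : R0 ≤ τ ^ 2 / 800 := by
    rw [hR0, div_le_div_iff₀ hl0 (by norm_num)]
    have : 6400 * (m : ℝ) ≤ l * τ := by linarith
    nlinarith
  have hball : ∀ v : ℂ, ‖v‖ ≤ R0 → ‖((-(τ ^ 2) : ℝ) : ℂ) + v - ((-(τ ^ 2) : ℝ) : ℂ)‖ ≤ τ ^ 2 / 800 := by
    intro v hv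
    rw [add_sub_cancel_left]
    linarith
  set P : ℂ → ℂ := fun v => logDeriv Gt (((-(τ ^ 2) : ℝ) : ℂ) + v) with hP
  have hdir : ∀ v : ℂ, ‖v‖ ≤ R0 → ‖P v * (4 * I * τ / l) - 1‖ ≤ 1 / 100 := fun v hv =>
    Gt_dir hC hτ hl (hball v hv)
  have hfac : ‖(4 * I * τ / l : ℂ)‖ = 4 * τ / l := by
    rw [norm_div, norm_mul, norm_mul, Complex.norm_I, Complex.norm_real, Complex.norm_real,
      Real.norm_of_nonneg hτ0.le, Real.norm_of_nonneg hl0.le, Complex.norm_ofNat, mul_one]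
  have hfpos : 0 < 4 * τ / l := by positivity
  have hPlow : ∀ v : ℂ, ‖v‖ ≤ R0 → 99 / 100 ≤ ‖P v‖ * (4 * τ / l) := by
    intro v hv
    have h1 := hdir v hv
    have h2 : ‖(1 : ℂ)‖ - ‖P v * (4 * I * τ / l)‖ ≤ ‖(1 : ℂ) - P v * (4 * I * τ / l)‖ :=
      norm_sub_norm_le _ _
    rw [norm_sub_rev, norm_one, norm_mul, hfac] at h2
    linarith
  have hPup : ∀ v : ℂ, ‖v‖ ≤ R0 → ‖P v‖ * (4 * τ / l) ≤ 101 / 100 := by
    intro v hv
    have h1 := hdir v hv
    have h2 : ‖P v * (4 * I * τ / l)‖ - ‖(1 : ℂ)‖ ≤ ‖P v * (4 * I * τ / l) - 1‖ :=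
      norm_sub_norm_le _ _
    rw [norm_one, norm_mul, hfac] at h2
    linarith
  have hPlow2 : ∀ v : ℂ, ‖v‖ ≤ R0 → l / (8 * τ) ≤ ‖P v‖ := by
    intro v hv
    have h1 := hPlow v hv
    rw [mul_div_assoc', le_div_iff₀ hl0] at h1
    rw [div_le_iff₀ (by positivity)]
    nlinarith
  have hPne : ∀ v : ℂ, ‖v‖ ≤ R0 → P v ≠ 0 := by
    intro v hv h0
    have := hPlow2 v hv
    rw [h0, norm_zero] at this
    have h1 : 0 < l / (8 * τ) := by positivity
    linarith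
  set T : ℂ → ℂ := fun v => (m : ℂ) / P v with hT
  have hTmap : Set.MapsTo T (closedBall (0 : ℂ) R0) (closedBall (0 : ℂ) R0) := by
    intro v hv
    rw [mem_closedBall_zero_iff] at hv ⊢
    rw [hT]
    simp only
    rw [norm_div, Complex.norm_natCast, div_le_iff₀ (norm_pos_iff.2 (hPne v hv))]
    calc (m : ℝ) = R0 * (l / (8 * τ)) := by rw [hR0]; field_simp
      _ ≤ R0 * ‖P v‖ := by gcongr; exact hPlow2 v hv
  have hlipT : ∀ v ∈ closedBall (0 : ℂ) R0, ∀ v' ∈ closedBall (0 : ℂ) R0,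
      dist (T v) (T v') ≤ 1 / 2 * dist v v' := by
    intro v hv v' hv'
    rw [mem_closedBall_zero_iff] at hv hv'
    rw [dist_eq_norm, dist_eq_norm, hT]
    simp only
    have e : (m : ℂ) / P v - m / P v' = m * (P v' - P v) / (P v * P v') := by
      have := hPne v hv; have := hPne v' hv'
      field_simp
    rw [e, norm_div, norm_mul, norm_mul, Complex.norm_natCast]
    have h1 : ‖P v' - P v‖ ≤ 8 * l / τ ^ 3 * ‖v - v'‖ := by
      have h2 := Gt_lip hC hτ hl (((-(τ ^ 2) : ℝ) : ℂ) + v') (by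
        rw [mem_ball, dist_eq_norm]
        refine (hball v' hv').trans_lt ?_
        have : 0 < τ ^ 2 := by positivity
        linarith) (((-(τ ^ 2) : ℝ) : ℂ) + v) (by
        rw [mem_ball, dist_eq_norm]
        refine (hball v hv).trans_lt ?_
        have : 0 < τ ^ 2 := by positivity
        linarith)
      have e3 : ((-(τ ^ 2) : ℝ) : ℂ) + v' - (((-(τ ^ 2) : ℝ) : ℂ) + v) = -(v - v') := by ring
      rw [e3, norm_neg] at h2
      exact h2
    have h2 : (l / (8 * τ)) * (l / (8 * τ)) ≤ ‖P v‖ * ‖P v'‖ := by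
      have := hPlow2 v hv; have := hPlow2 v' hv'
      gcongr
    have h3 : 0 < (l / (8 * τ)) * (l / (8 * τ)) := by positivity
    rw [div_le_iff₀ (lt_of_lt_of_le h3 h2)]
    calc (m : ℝ) * ‖P v' - P v‖ ≤ m * (8 * l / τ ^ 3 * ‖v - v'‖) := by gcongr
      _ = (8 * m * l / τ ^ 3) * ‖v - v'‖ := by ring
      _ ≤ (1 / 2 * ((l / (8 * τ)) * (l / (8 * τ)))) * ‖v - v'‖ := by
          refine mul_le_mul_of_nonneg_right ?_ (norm_nonneg _)
          rw [div_le_iff₀ (by positivity)]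
          have e5 : 1 / 2 * (l / (8 * τ) * (l / (8 * τ))) * τ ^ 3 = 1 / 128 * l * (l * τ) := by
            field_simp
            ring
          rw [e5]
          have : 1024 * (m : ℝ) ≤ l * τ := by linarith
          nlinarith
      _ ≤ (1 / 2 * (‖P v‖ * ‖P v'‖)) * ‖v - v'‖ := by gcongr
      _ = 1 / 2 * ‖v - v'‖ * (‖P v‖ * ‖P v'‖) := by ring
  have hcontr : ContractingWith (1 / 2) (hTmap.restrict T _ _) := by
    refine ⟨by norm_num, ?_⟩
    apply LipschitzWith.of_dist_le_mul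
    intro a b
    have := hlipT a.1 a.2 b.1 b.2
    rw [Subtype.dist_eq, Subtype.dist_eq]
    simpa using this
  obtain ⟨v, hv, hfix, -⟩ := hcontr.exists_fixedPoint' isClosed_closedBall.isComplete hTmap
    (mem_closedBall_self hR0pos) (edist_ne_top _ _)
  have hvR : ‖v‖ ≤ R0 := by rwa [mem_closedBall_zero_iff] at hv
  have hPv := hPne v hvR
  have hfix' : (m : ℂ) / P v = v := hfix
  have hvP : v * P v = m := by
    rw [div_eq_iff hPv] at hfix'
    exact hfix'.symm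
  refine ⟨v, hvP, ?_, hvR, ?_⟩
  · have h1 := hPup v hvR
    have h2 := congrArg (fun x => ‖x‖) hvP
    simp only [norm_mul, Complex.norm_natCast] at h2
    rw [div_le_iff₀ hl0, ← h2]
    rw [mul_div_assoc', div_le_iff₀ hl0] at h1
    have : ‖P v‖ * τ ≤ l := by nlinarith
    calc ‖v‖ * ‖P v‖ * τ = ‖v‖ * (‖P v‖ * τ) := by ring
      _ ≤ ‖v‖ * l := by gcongr
  · -- direction
    have hQ := hdir v hvR
    set Q := P v * (4 * I * τ / l) with hQdef
    have hvQ : v * Q = ((4 * m * τ / l : ℝ) : ℂ) * I := by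
      rw [hQdef, ← mul_assoc, hvP]
      push_cast
      ring
    have hA : 0 < 4 * m * τ / l := by positivity
    set A := 4 * m * τ / l with hAdef
    have hQn : ‖Q‖ ≤ 101 / 100 := by
      have : Q = (Q - 1) + 1 := by ring
      rw [this]
      refine (norm_add_le _ _).trans ?_
      rw [norm_one]; linarith
    have hQre : 99 / 100 ≤ Q.re := by
      have h1 := (abs_le.1 ((abs_re_le_norm (Q - 1)).trans hQ)).1
      rw [sub_re, one_re] at h1
      linarith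
    have hQ0 : Q ≠ 0 := by
      intro h0; rw [h0] at hQre; simp at hQre; linarith
    have hQpos : 0 < ‖Q‖ := norm_pos_iff.2 hQ0
    have hv2 : v * ((‖Q‖ ^ 2 : ℝ) : ℂ) = ((A : ℝ) : ℂ) * (I * starRingEnd ℂ Q) := by
      have : Q * starRingEnd ℂ Q = ((‖Q‖ ^ 2 : ℝ) : ℂ) := by
        rw [Complex.mul_conj, Complex.normSq_eq_norm_sq]
      rw [← this]
      linear_combination (starRingEnd ℂ Q) * hvQ
    have him : v.im * ‖Q‖ ^ 2 = A * Q.re := by
      have := congrArg Complex.im hv2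
      rw [Complex.im_mul_ofReal, Complex.im_ofReal_mul, Complex.I_mul_im, Complex.conj_re] at this
      exact this
    have hnv : ‖v‖ * ‖Q‖ = A := by
      have := congrArg (fun x => ‖x‖) hvQ
      simp only [norm_mul, Complex.norm_I, mul_one, Complex.norm_real] at this
      rw [this, Real.norm_of_nonneg hA.le]
    have hfin : 98 / 100 * ‖v‖ * ‖Q‖ ^ 2 ≤ v.im * ‖Q‖ ^ 2 := by
      rw [him, ← hnv]
      have : 98 / 100 * ‖Q‖ ≤ Q.re := by linarith
      have h2 : 0 ≤ ‖v‖ * ‖Q‖ := by positivity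
      nlinarith
    exact le_of_mul_le_mul_right hfin (by positivity)

end Pool.Agent.Helper75.Jen
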