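import Pool.Agent.Helper75.Jen.Ver2
import Pool.Agent.Helper75.Jen.Approx

set_option autoImplicit false
set_option maxHeartbeats 1000000

open Complex Filter Topology Metric

namespace Pool.Agent.Helper75.Jen

variable {C1 τ : ℝ} {m : ℕ}

lemma comp_H2 (hτ : 10 ^ 16 ≤ τ) {u : ℂ} (hu : ‖u - (-(τ ^ 2) : ℝ)‖ < τ ^ 2 / 4)
    (hre : 10 ≤ (wf u).re) : ‖FF u - Gt u‖ ≤ 1 / 100 * ‖Gt u‖ := by
  obtain ⟨h1, h2, h3, h4, h5⟩ := wf_geom (by linarith : 0 < τ) hu
  have hne : wf u ≠ 1 / 2 := by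
    intro h
    rw [h] at h2
    norm_num at h2
    linarith
  have hre2 : (1 / 2 + wf u).re = 1 / 2 + (wf u).re := by
    rw [add_re]; norm_num
  rw [FF_wf, fx_eq (by linarith) hne, Gt]
  have e : Gx (wf u) * riemannZeta (1 / 2 + wf u) - Gx (wf u) =
      Gx (wf u) * (riemannZeta (1 / 2 + wf u) - 1) := by ring
  rw [e, norm_mul, mul_comm]
  refine mul_le_mul_of_nonneg_right ?_ (norm_nonneg _)
  refine (zeta_sub_one (by rw [hre2]; linarith)).trans ?_
  calc (2 : ℝ) ^ (2 - (1 / 2 + wf u).re) ≤ (2 : ℝ) ^ (-8 : ℝ) := by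
        apply Real.rpow_le_rpow_of_exponent_le (by norm_num)
        rw [hre2]; linarith
    _ ≤ 1 / 100 := by
        rw [Real.rpow_neg (by norm_num), show (8 : ℝ) = ((8 : ℕ) : ℝ) by norm_num, Real.rpow_natCast]
        norm_num

lemma zeta_half_bound (hτ : 10 ^ 16 ≤ τ) {w : ℂ} (h0 : 0 ≤ w.re) (h1 : w.re ≤ 15 / 100 * τ)
    (h2 : 86 / 100 * τ ≤ w.im) (h3 : w.im ≤ 114 / 100 * τ) :
    ‖riemannZeta (1 / 2 + w)‖ ≤ 24 * τ ^ 2 := by
  have hre2 : (1 / 2 + w).re = 1 / 2 + w.re := by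
    rw [add_re]; norm_num
  have him2 : (1 / 2 + w - 1).im = w.im := by
    simp
  have hs : 1 / 2 ≤ (1 / 2 + w).re := by rw [hre2]; linarith
  have hs1 : 1 / 2 ≤ ‖(1 / 2 + w) - 1‖ := by
    refine le_trans ?_ ((le_abs_self _).trans (abs_im_le_norm _))
    rw [him2]; linarith
  refine (Pool.Agent.H306R2.zeta_norm_le hs hs1).trans ?_
  have h5 : ‖(1 / 2 + w : ℂ)‖ + 1 ≤ 2 * τ := by
    have a1 := norm_le_abs_re_add_abs_im (1 / 2 + w)
    rw [hre2, abs_of_nonneg (by linarith)] at a1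
    have a2 : (1 / 2 + w).im = w.im := by simp
    rw [a2, abs_of_nonneg (by linarith)] at a1
    linarith
  calc 6 * (‖(1 / 2 + w : ℂ)‖ + 1) ^ 2 ≤ 6 * (2 * τ) ^ 2 := by gcongr
    _ = 24 * τ ^ 2 := by ring

lemma comp_H1 (hC : LB C1) (hτ : 10 ^ 16 ≤ τ) (hl : 1000 * C1 ≤ Real.log τ) {u : ℂ}
    (hu : ‖u - (-(τ ^ 2) : ℝ)‖ < τ ^ 2 / 4)
    (hre : -1 ≤ (wf u).re) : ‖FF u‖ ≤ 24 * τ ^ 4 * ‖Gt u‖ := by
  have hτ0 : 0 < τ := by linarith
  have hC1 := hC.1
  obtain ⟨h1, h2, h3, h4, h5⟩ := wf_geom hτ0 hu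
  have h4' := abs_le.1 h4
  have hne : ∀ w : ℂ, w.im = (wf u).im → w ≠ 1 / 2 := by
    intro w hw h
    rw [h] at hw
    norm_num at hw
    linarith
  have hl0 : 0 < Real.log τ := by linarith
  rcases le_or_gt 0 (wf u).re with hp | hn
  · rw [FF_wf, fx_eq (by linarith) (hne _ rfl), norm_mul, Gt, mul_comm]
    refine mul_le_mul_of_nonneg_right ?_ (norm_nonneg _)
    refine (zeta_half_bound hτ hp h4'.2 h2 h3).trans ?_
    have : (1 : ℝ) ≤ τ ^ 2 := one_le_pow₀ (by linarith)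
    nlinarith [sq_nonneg τ]
  · set w := wf u with hw
    set w' : ℂ := -(starRingEnd ℂ w) with hw'
    have hwre : w'.re = -w.re := by rw [hw', neg_re, conj_re]
    have hwim : w'.im = w.im := by rw [hw', neg_im, conj_im, neg_neg]
    have hfx : ‖fx w‖ = ‖fx w'‖ := by
      rw [hw', fx_even, fx_conj, Complex.norm_conj]
    have hdist : ‖w' - w‖ ≤ 2 := by
      have : w' - w = ((-2 * w.re : ℝ) : ℂ) := by
        apply Complex.ext
        · rw [sub_re, hwre, ofReal_re]; ring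
        · rw [sub_im, hwim, ofReal_im]; ring
      rw [this, Complex.norm_real, Real.norm_of_nonneg (by linarith)]
      linarith
    -- the ball of radius 4 about w
    have hreg : ∀ z ∈ ball w 4, 4 ≤ z.im ∧ |z.re| ≤ z.im / 2 ∧ z.im ≤ 2 * τ := by
      intro z hz
      rw [mem_ball, dist_eq_norm] at hz
      have a1 := (abs_re_le_norm (z - w)).trans hz.le
      have a2 := (abs_im_le_norm (z - w)).trans hz.le
      rw [sub_re, abs_le] at a1
      rw [sub_im, abs_le] at a2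
      refine ⟨by linarith, ?_, by linarith⟩
      rw [abs_le]
      constructor <;> linarith
    have hdiff : DifferentiableOn ℂ Gx (ball w 4) := fun z hz =>
      (hC.2 z (hreg z hz).1 (hreg z hz).2.1).2.1.differentiableWithinAt
    have hn0 : ∀ z ∈ ball w 4, Gx z ≠ 0 := fun z hz =>
      (hC.2 z (hreg z hz).1 (hreg z hz).2.1).1
    have hbd : ∀ z ∈ ball w 4, ‖logDeriv Gx z‖ ≤ Real.log τ := by
      intro z hz
      obtain ⟨r1, r2, r3⟩ := hreg z hz
      have r4 := (hC.2 z r1 r2).2.2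
      have r5 : Real.log z.im ≤ Real.log τ + 1 := by
        have : Real.log z.im ≤ Real.log (2 * τ) := Real.log_le_log (by linarith) r3
        rw [Real.log_mul (by norm_num) hτ0.ne'] at this
        linarith [Real.log_two_lt_d9]
      have r6 : 0 ≤ Real.log z.im := Real.log_nonneg (by linarith)
      have e : logDeriv Gx z = ((1 / 2 * Real.log z.im : ℝ) : ℂ) +
        (logDeriv Gx z - ((1 / 2 * Real.log z.im : ℝ) : ℂ)) := by ring
      rw [e]
      refine (norm_add_le _ _).trans ?_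
      rw [Complex.norm_real, Real.norm_of_nonneg (by positivity)]
      linarith
    obtain ⟨hh, hh1, hh2⟩ := ratio_exp hdiff hn0 hbd (mem_ball_self (by norm_num : (0 : ℝ) < 4))
      (w := w') (by rw [mem_ball, dist_eq_norm]; linarith)
    have hG' : ‖Gx w'‖ ≤ ‖Gx w‖ * τ ^ 2 := by
      rw [hh1, norm_mul]
      refine mul_le_mul_of_nonneg_left ?_ (norm_nonneg _)
      rw [Complex.norm_exp]
      calc Real.exp hh.re ≤ Real.exp (2 * Real.log τ) := by
            refine Real.exp_le_exp.2 ((Complex.re_le_norm hh).trans (hh2.trans ?_))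
            nlinarith
        _ = τ ^ 2 := by
            rw [two_mul, Real.exp_add, Real.exp_log hτ0]; ring
    rw [FF_wf, hfx, fx_eq (by rw [hwre]; linarith) (hne _ hwim), norm_mul]
    have hz := zeta_half_bound hτ (w := w') (by rw [hwre]; linarith) (by rw [hwre]; linarith)
      (by rw [hwim]; exact h2) (by rw [hwim]; exact h3)
    calc ‖Gx w'‖ * ‖riemannZeta (1 / 2 + w')‖ ≤ (‖Gx w‖ * τ ^ 2) * (24 * τ ^ 2) := by gcongr
      _ = 24 * τ ^ 4 * ‖Gx w‖ := by ring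

/-- points on the upper half circle -/
lemma circ_pt {x y ρ φ : ℝ} {τ : ℝ} (hx : x = -(τ ^ 2)) :
    ‖((⟨x, y⟩ : ℂ) + ρ * cexp (φ * I)) - (-(τ ^ 2) : ℝ)‖ ≤ |y| + |ρ| ∧
    ((⟨x, y⟩ : ℂ) + ρ * cexp (φ * I)).im = y + ρ * Real.sin φ := by
  constructor
  · have e : ((⟨x, y⟩ : ℂ) + ρ * cexp (φ * I)) - (-(τ ^ 2) : ℝ) = y * I + ρ * cexp (φ * I) := by
      have : (⟨x, y⟩ : ℂ) - (-(τ ^ 2) : ℝ) = y * I := by
        rw [hx]
        apply Complex.ext
        · rw [sub_re, ofReal_re, Complex.re_ofReal_mul, Complex.I_re]; ring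
        · rw [sub_im, ofReal_im, Complex.im_ofReal_mul, Complex.I_im]; ring
      rw [← this]; ring
    rw [e]
    refine (norm_add_le _ _).trans ?_
    rw [norm_mul, norm_mul, Complex.norm_exp_ofReal_mul_I, Complex.norm_I, mul_one, mul_one,
      Complex.norm_real, Complex.norm_real, Real.norm_eq_abs, Real.norm_eq_abs]
  · rw [add_im, Complex.im_ofReal_mul, Complex.exp_ofReal_mul_I_im]

lemma sin_near {φ1 φ : ℝ} (h1 : 98 / 100 ≤ Real.sin φ1) (h : |φ - φ1| ≤ 1 / 2) :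
    7 / 10 ≤ Real.sin φ := by
  have e : Real.sin φ = Real.sin φ1 * Real.cos (φ - φ1) + Real.cos φ1 * Real.sin (φ - φ1) := by
    have := Real.sin_add φ1 (φ - φ1)
    rw [add_sub_cancel] at this
    exact this
  rw [e]
  have hsq := Real.sin_sq_add_cos_sq φ1
  have hs1 := Real.sin_le_one φ1
  have hc1 : |Real.cos φ1| ≤ 1 / 5 := by
    have : Real.cos φ1 ^ 2 ≤ (1 / 5) ^ 2 := by nlinarith
    exact abs_le_of_sq_le_sq' this (by norm_num) |> abs_le.2
  have hc2 : 7 / 8 ≤ Real.cos (φ - φ1) := by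
    have h3 := Real.one_sub_sq_div_two_le_cos (x := φ - φ1)
    have h4 : (φ - φ1) ^ 2 ≤ (1 / 2) ^ 2 := by rw [← sq_abs]; gcongr
    linarith
  have hs2 : |Real.sin (φ - φ1)| ≤ 1 / 2 := Real.abs_sin_le_abs.trans h
  have h5 : |Real.cos φ1 * Real.sin (φ - φ1)| ≤ 1 / 5 * (1 / 2) := by
    rw [abs_mul]; gcongr
  have h6 := (abs_le.1 h5).1
  have h7 : 98 / 100 * (7 / 8) ≤ Real.sin φ1 * Real.cos (φ - φ1) := by gcongr
  linarith

theorem hS1_core (hC : LB C1) (h : Par C1 τ m) {y : ℝ} (hy : y ^ 2 ≤ τ ^ 2 + 1 / 4)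
    (hz : iteratedDeriv m FF ⟨-(τ ^ 2), y⟩ = 0) :
    y = 0 ∧ iteratedDeriv (m + 1) FF ⟨-(τ ^ 2), y⟩ ≠ 0 := by
  have hτ := h.tau
  have hτ0 : 0 < τ := by linarith
  have hC1 := hC.1
  have hl := h.lt
  have hm9 := h.m9
  have hmt := h.mt
  have hlm := h.lm
  have hm0 : (0 : ℝ) < m := by linarith
  obtain ⟨v, hv1, hv2, hv3, hv4⟩ := exists_saddle hC h
  set l := Real.log τ with hldef
  have hl0 : 0 < l := by linarith
  have hl1 : 1000 ≤ l := by linarith
  have hlτ : 10 ^ 10 * (m : ℝ) ≤ l * τ := by nlinarith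
  set Y := Real.sqrt (τ ^ 2 + 1 / 4) with hY
  have hYs : Y ^ 2 = τ ^ 2 + 1 / 4 := Real.sq_sqrt (by positivity)
  have hY0 : 0 ≤ Y := Real.sqrt_nonneg _
  have hYle : Y ≤ 101 / 100 * τ := by
    rw [hY, Real.sqrt_le_left (by positivity)]
    nlinarith
  have hyY : |y| ≤ Y := by
    rw [hY]
    exact Real.abs_le_sqrt hy
  have hρτ : ‖v‖ * l ≤ 8 * m * τ := by
    rwa [le_div_iff₀ hl0] at hv3
  have hρτ2 : m * τ ≤ ‖v‖ * l := by
    rwa [div_le_iff₀ hl0] at hv2
  have hρpos : 0 < ‖v‖ := lt_of_lt_of_le (by positivity) hv2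
  -- bound on the radius
  have hρle : ‖v‖ ≤ τ ^ 2 / 10 ^ 8 := by
    refine hv3.trans ?_
    rw [div_le_div_iff₀ hl0 (by norm_num)]
    nlinarith
  have hr : ‖v‖ + Y < τ ^ 2 / 8 := by
    have : τ * 10 ^ 16 ≤ τ ^ 2 := by nlinarith
    linarith
  have hcirc : ∀ y : ℝ, |y| ≤ Y → ∀ φ : ℝ,
      ‖((⟨-(τ ^ 2), y⟩ : ℂ) + ‖v‖ * cexp (φ * I)) - (-(τ ^ 2) : ℝ)‖ < τ ^ 2 / 4 := by
    intro y hy φ
    refine lt_of_le_of_lt (circ_pt rfl).1 ?_
    rw [abs_of_pos hρpos]
    have : 0 < τ ^ 2 := by positivity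
    linarith
  have hpos := saddle FF_diff (m := m) hm9 (x := -(τ ^ 2)) (Y := Y) (r := τ ^ 2 / 8)
    (L := 8 * l / τ ^ 3) (v := v) (Gt := Gt) hY0 (by positivity)
    ((Gt_diffOn hC hτ).mono (ball_subset_ball (by nlinarith)))
    (fun u hu => (Gt_facts hC hτ (by
      rw [mem_ball, dist_eq_norm] at hu
      have : 0 < τ ^ 2 := by positivity
      linarith)).1)
    (Gt_lip hC hτ hl) hv1 hr hv4
    (by
      rw [mul_div_assoc', div_le_iff₀ (by positivity)]
      have e1 : (‖v‖ * l) ^ 2 ≤ (8 * m * τ) ^ 2 := by gcongr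
      have e2 : ‖v‖ ^ 2 * (8 * l) * l ≤ (1 / 10000 * m * τ ^ 3) * l := by
        calc ‖v‖ ^ 2 * (8 * l) * l = 8 * (‖v‖ * l) ^ 2 := by ring
          _ ≤ 8 * (8 * m * τ) ^ 2 := by gcongr
          _ = 512 * m * τ ^ 2 * m := by ring
          _ ≤ 512 * m * τ ^ 2 * (l * τ / 10 ^ 10) := by gcongr; linarith
          _ ≤ (1 / 10000 * m * τ ^ 3) * l := by
              have : 0 ≤ m * τ ^ 3 * l := by positivity
              nlinarith
      exact le_of_mul_le_mul_right e2 hl0)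
    (by
      have e1 : ‖v‖ * (8 * l / τ ^ 3) * Y = 8 * (‖v‖ * l) * Y / τ ^ 3 := by ring
      rw [e1, div_le_iff₀ (by positivity)]
      calc 8 * (‖v‖ * l) * Y ≤ 8 * (8 * m * τ) * (101 / 100 * τ) := by gcongr
        _ = 6464 / 100 * (m * τ ^ 2) := by ring
        _ ≤ 6464 / 100 * ((τ / 10 ^ 7) * τ ^ 2) := by gcongr; linarith
        _ ≤ 1 / 200 * τ ^ 3 := by
            have : 0 ≤ τ ^ 3 := by positivity
            nlinarith)
    (by
      intro y hy φ hφ
      set u := ((⟨-(τ ^ 2), y⟩ : ℂ) + ‖v‖ * cexp (φ * I)) with hu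
      have hub := hcirc y hy φ
      obtain ⟨g1, g2, g3, g4, g5⟩ := wf_geom hτ0 hub
      have him : u.im = y + ‖v‖ * Real.sin φ := (circ_pt (x := -(τ ^ 2)) rfl).2
      have hsin : 0 ≤ Real.sin φ := Real.sin_nonneg_of_mem_Icc hφ
      have hre : -1 ≤ (wf u).re := by
        by_contra hcon
        push Not at hcon
        have h1 : 2 * (wf u).re * (wf u).im < 2 * (-1) * (86 / 100 * τ) := by nlinarith
        rw [g5, him] at h1
        have h2 := (abs_le.1 hy).1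
        have h3 : 0 ≤ ‖v‖ * Real.sin φ := by positivity
        linarith
      refine (comp_H1 hC hτ hl hub hre).trans ?_
      refine mul_le_mul_of_nonneg_right ?_ (norm_nonneg _)
      calc 24 * τ ^ 4 ≤ Real.exp 4 * Real.exp (4 * l) := by
            have e4 : Real.exp (4 * l) = τ ^ 4 := by
              rw [show 4 * l = l + l + l + l by ring, Real.exp_add, Real.exp_add, Real.exp_add,
                hldef, Real.exp_log hτ0]
              ring
            rw [e4]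
            have e5 : (24 : ℝ) ≤ Real.exp 4 := by
              have : Real.exp 4 = Real.exp 1 ^ 4 := by
                rw [← Real.exp_nat_mul]; norm_num
              rw [this]
              have h6 := Real.exp_one_gt_d9
              have : (2.7 : ℝ) ^ 4 ≤ Real.exp 1 ^ 4 := by
                apply pow_le_pow_left₀ (by norm_num)
                linarith
              norm_num at this ⊢
              linarith
            gcongr
        _ = Real.exp (4 + 4 * l) := by rw [Real.exp_add]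
        _ ≤ _ := Real.exp_le_exp.2 (by linarith))
    (by
      intro y hy φ hφ
      set u := ((⟨-(τ ^ 2), y⟩ : ℂ) + ‖v‖ * cexp (φ * I)) with hu
      have hub := hcirc y hy φ
      obtain ⟨g1, g2, g3, g4, g5⟩ := wf_geom hτ0 hub
      have him : u.im = y + ‖v‖ * Real.sin φ := (circ_pt (x := -(τ ^ 2)) rfl).2
      have hsin1 : 98 / 100 ≤ Real.sin (arg v) := by
        rw [Complex.sin_arg, le_div_iff₀ hρpos]
        exact hv4
      have hsin : 7 / 10 ≤ Real.sin φ := sin_near hsin1 hφ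
      refine comp_H2 hτ hub ?_
      by_contra hcon
      push Not at hcon
      have h1 : 2 * (wf u).re * (wf u).im ≤ 2 * 10 * (114 / 100 * τ) := by
        rcases le_or_gt 0 (wf u).re with h0 | h0
        · have := mul_le_mul hcon.le g3 (by linarith) (by norm_num)
          linarith
        · have : (wf u).re * (wf u).im ≤ 0 := mul_nonpos_of_nonpos_of_nonneg h0.le (by linarith)
          nlinarith
      rw [g5, him] at h1
      have h2 := (abs_le.1 hy).1
      have h3 : ‖v‖ * (7 / 10) ≤ ‖v‖ * Real.sin φ := by gcongr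
      have h4 : ‖v‖ ≤ 100 * τ := by linarith
      have h5 : m * τ ≤ 100 * τ * l := hρτ2.trans (by gcongr)
      have h6 : (m : ℝ) ≤ 100 * l := by
        have : m * τ ≤ (100 * l) * τ := by linarith
        exact le_of_mul_le_mul_right this hτ0
      linarith)
  exact zeros_of_pos FF_diff FF_conj m hρpos hpos hyY hz

theorem hS1_FF : ∃ (K c : ℝ) (m0 : ℕ), 1 ≤ K ∧ 0 < c ∧ ∀ m : ℕ, m0 ≤ m → ∀ z ∈ KK,
    iteratedDeriv m FF z = 0 → K * (m : ℝ) ^ 2 ≤ ‖z‖ → ‖z‖ ≤ Real.exp (c * m) →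
      z.im = 0 ∧ iteratedDeriv (m + 1) FF z ≠ 0 := by
  obtain ⟨C1, hC⟩ := logDeriv_Gx
  have hC1 := hC.1
  refine ⟨10 ^ 14 + 1, 1 / 1000, ⌈Real.exp (1000 * C1)⌉₊ + 10 ^ 9, by norm_num, by norm_num, ?_⟩
  intro m hm z hzK hz hlow hup
  have hm' : Real.exp (1000 * C1) + 10 ^ 9 ≤ m := by
    have h1 : ((⌈Real.exp (1000 * C1)⌉₊ + 10 ^ 9 : ℕ) : ℝ) ≤ m := by exact_mod_cast hm
    push_cast at h1
    linarith [Nat.le_ceil (Real.exp (1000 * C1))]
  have hexp : 0 < Real.exp (1000 * C1) := Real.exp_pos _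
  have hm9 : (10 : ℝ) ^ 9 ≤ m := by linarith
  have hm0 : (0 : ℝ) < m := by linarith
  have hKK : z.re + z.im ^ 2 ≤ 1 / 4 := hzK
  have hnorm : ‖z‖ ^ 2 = z.re ^ 2 + z.im ^ 2 := by
    rw [Complex.sq_norm, Complex.normSq_apply]; ring
  have hbig : 10 ^ 18 ≤ ‖z‖ := by nlinarith
  have hre : z.re < 0 := by
    by_contra hcon
    push Not at hcon
    nlinarith [sq_nonneg z.im]
  set τ := Real.sqrt (-z.re) with hτdef
  have hτsq : τ ^ 2 = -z.re := Real.sq_sqrt (by linarith)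
  have hτ0 : 0 < τ := Real.sqrt_pos.2 (by linarith)
  have hn1 : ‖z‖ ≤ τ ^ 2 + 1 / 2 := by
    have : ‖z‖ ^ 2 ≤ (τ ^ 2 + 1 / 2) ^ 2 := by
      rw [hnorm]
      have e : z.re ^ 2 = (τ ^ 2) ^ 2 := by rw [hτsq]; ring
      rw [e]
      nlinarith
    exact le_of_sq_le_sq this (by positivity) 
  have hn2 : τ ^ 2 ≤ ‖z‖ := by
    rw [hτsq]
    exact (neg_le_abs _).trans (abs_re_le_norm z)
  have hmt : 10 ^ 7 * (m : ℝ) ≤ τ := by
    have : (10 ^ 7 * (m : ℝ)) ^ 2 ≤ τ ^ 2 := by nlinarith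
    exact le_of_sq_le_sq this hτ0.le
  have hpar : Par C1 τ m := by
    refine ⟨hm9, hmt, ?_, ?_⟩
    · rw [Real.le_log_iff_exp_le hτ0]
      linarith
    · have h1 : Real.log (τ ^ 2) ≤ 1 / 1000 * m := by
        rw [Real.log_le_iff_le_exp (by positivity)]
        exact hn2.trans hup
      rw [Real.log_pow] at h1
      push_cast at h1
      linarith
  have hzeq : z = ⟨-(τ ^ 2), z.im⟩ := by
    apply Complex.ext
    · simp [hτsq]
    · rfl
  rw [hzeq] at hz
  have := hS1_core hC hpar (y := z.im) (by linarith) hz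
  rw [← hzeq] at this
  exact this

end Pool.Agent.Helper75.Jen
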