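import Pool.Agent.Helper75.Jen.Main

set_option autoImplicit false
set_option maxHeartbeats 1000000

open Polynomial Complex Filter Topology Metric

namespace Pool.Agent.Helper75.Jen

variable {F : ℂ → ℂ} {P : ℕ → ℂ[X]}

/-- the form with the exact constant: if the zeros of every high derivative `F^(m)` with
`K m² ≤ |z| ≤ e^(c m)` are real and simple, then all Jensen polynomials with
`d + 1 ≤ e^(c n)`, `n` large, are real-rooted. -/
theorem main_exact (h : Conv F P) {C : ℝ} (hC : 0 ≤ C)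
    (hgr : ∀ z, ‖F z‖ ≤ Real.exp (C * (1 + ‖z‖) ^ (3 / 5 : ℝ)))
    {K c : ℝ} {m0 : ℕ} (hK : 1 ≤ K) (hc : 0 < c)
    (hS1 : ∀ m : ℕ, m0 ≤ m → ∀ z ∈ KK, iteratedDeriv m F z = 0 → K * (m : ℝ) ^ 2 ≤ ‖z‖ →
      ‖z‖ ≤ Real.exp (c * m) → z.im = 0 ∧ iteratedDeriv (m + 1) F z ≠ 0) :
    ∃ N0 : ℕ, ∀ d n : ℕ, N0 ≤ n → (d : ℝ) + 1 ≤ Real.exp (c * n) →
      ∀ z : ℂ, Jv d (fun j => iteratedDeriv (n + j) F 0) z = 0 → z.im = 0 := by
  obtain ⟨K1, hK1, hSS⟩ := h.SS_le hC hgr
  set c1 : ℝ := 1 / (2 * K1) with hc1def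
  have hc1 : 0 < c1 := by positivity
  obtain ⟨T0, hT02, hT0⟩ := exists_T0 K c c1 K1 m0 hK hc hc1 hK1
  refine ⟨⌈T0 ^ 12⌉₊, ?_⟩
  intro d n hn hdexp
  have hnT : T0 ^ 12 ≤ n := (Nat.le_ceil _).trans (by exact_mod_cast hn)
  have hnpos : (0 : ℝ) < n := lt_of_lt_of_le (by positivity) hnT
  set t : ℝ := (n : ℝ) ^ (1 / 12 : ℝ) with ht
  have ht0 : 0 < t := Real.rpow_pos_of_pos hnpos _
  have ht12 : t ^ 12 = n := by
    rw [ht, ← Real.rpow_natCast, ← Real.rpow_mul hnpos.le]; norm_num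
  have htT : T0 ≤ t := by
    by_contra hcon
    push Not at hcon
    have : t ^ 12 < T0 ^ 12 := pow_lt_pow_left₀ hcon ht0.le (by norm_num)
    rw [ht12] at this
    linarith
  have ht8 : (n : ℝ) ^ (2 / 3 : ℝ) = t ^ 8 := by
    rw [ht, ← Real.rpow_natCast, ← Real.rpow_mul hnpos.le]; norm_num
  obtain ⟨b1, b2, b3, b4, b5, b6, b7, b8⟩ := hT0 t htT
  -- the index m
  set m : ℕ := ⌊t⌋₊ + 1 with hm
  have hm1 : t ≤ m := by rw [hm]; push_cast; exact (Nat.lt_floor_add_one t).le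
  have hm2 : (m : ℝ) ≤ 2 * t := by
    rw [hm]; push_cast
    have := Nat.floor_le ht0.le
    linarith
  have hm3 : (m : ℝ) ≤ t + 1 := by
    rw [hm]; push_cast
    have := Nat.floor_le ht0.le
    linarith
  have hmn : m < n := by
    have : (m : ℝ) < n := by rw [← ht12]; linarith
    exact_mod_cast this
  have hm0 : m0 ≤ m := by
    have : (m0 : ℝ) ≤ m := b8.trans hm1
    exact_mod_cast this
  have hm0n : m0 ≤ n := by omega
  have hn1 : 1 ≤ n := by omega
  have hSm : (n : ℝ) ^ (-(2 / 3 : ℝ)) = (t ^ 8)⁻¹ := by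
    rw [Real.rpow_neg hnpos.le, ht8]
  have hSmall : K1 * (n : ℝ) ^ (-(2 / 3 : ℝ)) ≤ 1 / 4 := by
    rw [hSm, ← div_eq_mul_inv, div_le_iff₀ (by positivity)]
    linarith
  -- nonvanishing at zero
  have hF0 : iteratedDeriv n F 0 ≠ 0 := by
    have l1 : Tendsto (fun N => rr (P N) n * Real.exp (-(1 / 2))) atTop
        (𝓝 ((iteratedDeriv n F 1).re * Real.exp (-(1 / 2)))) := (h.at_one n).mul_const _
    have l2 : Tendsto (fun N => ‖(derivative^[n] (P N)).eval 0‖) atTop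
        (𝓝 ‖iteratedDeriv n F 0‖) := (h.at_pt n 0).norm
    have l3 : ∀ᶠ N in atTop, rr (P N) n * Real.exp (-(1 / 2)) ≤
        ‖(derivative^[n] (P N)).eval 0‖ := by
      filter_upwards [h.deg n, hSS n hn1] with N q1 q2
      have q3 := (h.good N).at_zero q1 (q2.trans hSmall)
      refine le_trans ?_ q3
      have := (h.good N).rr_nonneg n
      gcongr
      linarith [q2.trans hSmall]
    have l4 := le_of_tendsto_of_tendsto l1 l2 l3
    have l5 := h.pos_iter n
    have l6 : 0 < (iteratedDeriv n F 1).re * Real.exp (-(1 / 2)) := by positivity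
    exact norm_pos_iff.1 (lt_of_lt_of_le l6 l4)
  -- compact sets
  have hcomp : ∀ k : ℕ, IsCompact {z : ℂ | z ∈ KK ∧ K * (k : ℝ) ^ 2 ≤ ‖z‖ ∧
      ‖z‖ ≤ Real.exp (c * k)} := by
    intro k
    refine Metric.isCompact_of_isClosed_isBounded ?_ ?_
    · have i1 : IsClosed {z : ℂ | z ∈ KK} := by
        have : Continuous fun z : ℂ => z.re + z.im ^ 2 := by fun_prop
        exact isClosed_le this continuous_const
      have i2 : IsClosed {z : ℂ | K * (k : ℝ) ^ 2 ≤ ‖z‖} :=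
        isClosed_le continuous_const continuous_norm
      have i3 : IsClosed {z : ℂ | ‖z‖ ≤ Real.exp (c * k)} :=
        isClosed_le continuous_norm continuous_const
      exact i1.inter (i2.inter i3)
    · refine (Metric.isBounded_closedBall (x := (0 : ℂ)) (r := Real.exp (c * k))).subset ?_
      intro z hz
      rw [mem_closedBall_zero_iff]
      exact hz.2.2
  have H1 := h.hurwitz n (hcomp n) (fun z hz hz0 => hS1 n hm0n z hz.1 hz0 hz.2.1 hz.2.2)
  have H2 := h.hurwitz m (hcomp m) (fun z hz hz0 => hS1 m hm0 z hz.1 hz0 hz.2.1 hz.2.2)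
  refine lim_rr d (fun N j => (derivative^[n + j] (P N)).eval 0)
    (fun j => iteratedDeriv (n + j) F 0) (fun j => h.at_pt (n + j) 0) (by simpa using hF0) ?_
  filter_upwards [h.deg n, hSS n hn1, H1, H2] with N q1 q2 q3 q4
  have hg := h.good N
  have hfun : (fun j => (derivative^[n + j] (P N)).eval 0) =
      fun j => (j.factorial : ℂ) * (derivative^[n] (P N)).coeff j := by
    funext j
    rw [coeff_eq]
  rw [hfun]
  refine chasse d _ (iter_ne_zero hg.ne_zero q1.le) (sym_iter hg.sym n) ?_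
  intro z hz
  have hzK : z ∈ KK := gl hg.roots n q1.le z hz
  have hfar := hg.far q1 hz
  have hx : c1 * t ^ 8 ≤ 1 - z.re := by
    have hk := hzK
    simp only [KK, Set.mem_ofPred_eq] at hk
    have hx0 : 0 < 1 - z.re := by nlinarith [sq_nonneg z.im]
    have h3 : 1 ≤ 2 * (K1 * (n : ℝ) ^ (-(2 / 3 : ℝ))) * (1 - z.re) := by
      refine hfar.trans ?_
      gcongr
    rw [hSm] at h3
    have ht8' : (0 : ℝ) < t ^ 8 := by positivity
    have h4 : t ^ 8 ≤ 2 * K1 * (1 - z.re) := by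
      have h5 : 2 * (K1 * (t ^ 8)⁻¹) * (1 - z.re) = (2 * K1 * (1 - z.re)) / t ^ 8 := by
        field_simp
      rw [h5, le_div_iff₀ ht8', one_mul] at h3
      exact h3
    calc c1 * t ^ 8 ≤ c1 * (2 * K1 * (1 - z.re)) := by gcongr
      _ = 1 - z.re := by rw [hc1def]; field_simp
  have hzre : z.re ≤ -(c1 * t ^ 8 / 2) := by linarith
  have hzre0 : z.re < 0 := by linarith
  have hzne : z ≠ 0 := by rintro rfl; simp at hzre0
  obtain ⟨n1, n2⟩ := KK_norm hzK hzre0.le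
  refine ⟨hzne, ?_⟩
  by_cases him : z.im = 0
  · rw [him, zero_pow (by norm_num), mul_zero]
    positivity
  -- the nonreal case
  have hbig : (d : ℝ) + 1 ≤ ‖z‖ := by
    by_contra hcon
    push Not at hcon
    have hzexp : ‖z‖ ≤ Real.exp (c * n) := by linarith
    by_cases hKn : K * (n : ℝ) ^ 2 ≤ ‖z‖
    · exact him (q3 z ⟨hzK, hKn, hzexp⟩ hz)
    · push Not at hKn
      obtain ⟨k, hk⟩ : ∃ k : ℕ, n = m + (k + 1) := ⟨n - m - 1, by omega⟩
      have hz' := hz
      rw [hk] at hz'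
      obtain ⟨w, hw, hwi, hle⟩ := chain hg.sym m k (by omega) z hz' him
      have hwK : w ∈ KK := gl hg.roots m (by omega) w hw
      have hwK' := hwK
      simp only [KK, Set.mem_ofPred_eq] at hwK'
      have hk1 : ((k : ℝ) + 1) ≤ n := by
        rw [hk]; push_cast
        have : (0 : ℝ) ≤ m := Nat.cast_nonneg m
        linarith
      -- distance of real parts
      have hdist : (z.re - w.re) ^ 2 ≤ n * (1 / 4 - w.re) := by
        have e1 : (z.re - w.re) ^ 2 / ((k : ℝ) + 1) ≤ 1 / 4 - w.re := by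
          nlinarith [sq_nonneg z.im]
        rw [div_le_iff₀ (by positivity)] at e1
        have e2 : 0 ≤ 1 / 4 - w.re := by nlinarith [sq_nonneg w.im]
        calc (z.re - w.re) ^ 2 ≤ (1 / 4 - w.re) * ((k : ℝ) + 1) := e1
          _ ≤ (1 / 4 - w.re) * n := by gcongr
          _ = _ := by ring
      have hKt : K * (m : ℝ) ^ 2 ≤ 4 * K * t ^ 2 := by
        calc K * (m : ℝ) ^ 2 ≤ K * (2 * t) ^ 2 := by gcongr
          _ = _ := by ring
      have hdist' : (-w.re - -z.re) ^ 2 ≤ (n : ℝ) * (1 / 4 + -w.re) := by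
        calc (-w.re - -z.re) ^ 2 = (z.re - w.re) ^ 2 := by ring
          _ ≤ n * (1 / 4 - w.re) := hdist
          _ = _ := by ring
      have hlow : K * (m : ℝ) ^ 2 ≤ -w.re :=
        hKt.trans (low_ar ht0 ht12 hc1 (by linarith) hdist' b4 b5)
      have hn1' : (1 : ℝ) ≤ n := by exact_mod_cast hn1
      have hupp : -w.re ≤ 4 * K * (n : ℝ) ^ 2 := upp_ar hn1' hK (n2.trans hKn.le) hdist'
      have hwre : w.re ≤ 0 := by
        have : 0 ≤ K * (m : ℝ) ^ 2 := by positivity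
        linarith
      obtain ⟨w1, w2⟩ := KK_norm hwK hwre
      have hwlow : K * (m : ℝ) ^ 2 ≤ ‖w‖ := hlow.trans w2
      have hwupp : ‖w‖ ≤ Real.exp (c * m) := by
        have g1 : ‖w‖ ≤ 5 * K * (n : ℝ) ^ 2 := by
          have : 1 ≤ K * (n : ℝ) ^ 2 := by
            have h6 : (1 : ℝ) ≤ (n : ℝ) ^ 2 := one_le_pow₀ hn1'
            calc (1 : ℝ) = 1 * 1 := by ring
              _ ≤ K * (n : ℝ) ^ 2 := by gcongr
          linarith
        have g2 : (n : ℝ) ^ 2 = t ^ 24 := by rw [← ht12]; ring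
        rw [g2] at g1
        refine g1.trans (b6.trans (Real.exp_le_exp.2 ?_))
        gcongr
      exact hwi (q4 w ⟨hwK, hwlow, hwupp⟩ hw)
  have hk := hzK
  simp only [KK, Set.mem_ofPred_eq] at hk
  have h3 : z.im ^ 2 ≤ 1 / 4 + ‖z‖ := by linarith
  have hd0 : (0 : ℝ) ≤ d := Nat.cast_nonneg d
  calc (d : ℝ) * z.im ^ 2 ≤ d * (1 / 4 + ‖z‖) := by gcongr
    _ ≤ ‖z‖ ^ 2 := by nlinarith

end Pool.Agent.Helper75.Jen
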