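import Pool.Agent.Helper75.Jen.Lap

set_option autoImplicit false
set_option maxHeartbeats 1000000

open Complex Filter Topology Metric MeasureTheory intervalIntegral

namespace Pool.Agent.Helper75.Jen

/-- the integrand on the circle -/
noncomputable def Ic (F : ℂ → ℂ) (m : ℕ) (ρ : ℝ) (z : ℂ) (φ : ℝ) : ℂ :=
  F (z + ρ * cexp (φ * I)) * cexp (-(m * φ * I))

/-- the integral over the upper half circle -/
noncomputable def AA (F : ℂ → ℂ) (m : ℕ) (ρ : ℝ) (z : ℂ) : ℂ := ∫ φ in (0 : ℝ)..Real.pi, Ic F m ρ z φ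

lemma Ic_cont {F : ℂ → ℂ} (hF : Differentiable ℂ F) (m : ℕ) (ρ : ℝ) (z : ℂ) :
    Continuous (Ic F m ρ z) := by
  unfold Ic
  have := hF.continuous
  fun_prop

lemma Ic_conj {F : ℂ → ℂ} (hsym : ∀ z, F (starRingEnd ℂ z) = starRingEnd ℂ (F z)) (m : ℕ) (ρ : ℝ)
    (z : ℂ) (φ : ℝ) : Ic F m ρ z (-φ) = starRingEnd ℂ (Ic F m ρ (starRingEnd ℂ z) φ) := by
  unfold Ic
  rw [map_mul, ← hsym, map_add, map_mul, Complex.conj_conj, Complex.conj_ofReal, ← Complex.exp_conj,
    ← Complex.exp_conj]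
  simp only [map_mul, map_neg, Complex.conj_ofReal, Complex.conj_I, map_natCast, ofReal_neg]
  congr 2
  · ring_nf
  · ring

lemma Ic_per (F : ℂ → ℂ) (m : ℕ) (ρ : ℝ) (z : ℂ) (φ : ℝ) :
    Ic F m ρ z (2 * Real.pi - φ) = Ic F m ρ z (-φ) := by
  unfold Ic
  have e1 : cexp (((2 * Real.pi - φ : ℝ) : ℂ) * I) = cexp (((-φ : ℝ) : ℂ) * I) := by
    rw [show (((2 * Real.pi - φ : ℝ) : ℂ) * I) = ((-φ : ℝ) : ℂ) * I + 2 * Real.pi * I by
      push_cast; ring, Complex.exp_add, Complex.exp_two_pi_mul_I, mul_one]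
  have e2 : cexp (-(m * ((2 * Real.pi - φ : ℝ) : ℂ) * I)) = cexp (-(m * ((-φ : ℝ) : ℂ) * I)) := by
    have : (-(m * ((2 * Real.pi - φ : ℝ) : ℂ) * I)) = -(m * ((-φ : ℝ) : ℂ) * I) +
        -((m : ℕ) * (2 * Real.pi * I)) := by
      push_cast; ring
    rw [this, Complex.exp_add, Complex.exp_neg ((m : ℂ) * (2 * Real.pi * I)),
      Complex.exp_nat_mul_two_pi_mul_I, inv_one, mul_one]
  rw [e1, e2]

/-- the Cauchy formula -/
lemma cauchy_form {F : ℂ → ℂ} (hF : Differentiable ℂ F)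
    (hsym : ∀ z, F (starRingEnd ℂ z) = starRingEnd ℂ (F z)) (m : ℕ) {ρ : ℝ} (hρ : 0 < ρ) (z : ℂ) :
    iteratedDeriv m F z * (2 * Real.pi * ρ ^ m / m.factorial) =
      AA F m ρ z + starRingEnd ℂ (AA F m ρ (starRingEnd ℂ z)) := by
  have h1 := DifferentiableOn.circleIntegral_one_div_sub_center_pow_smul (c := z) (f := F) hρ m
    hF.differentiableOn
  have h2 : (∮ w in C(z, ρ), (1 / (w - z) ^ (m + 1)) • F w) =
      I / ρ ^ m * ∫ φ in (0 : ℝ)..(2 * Real.pi), Ic F m ρ z φ := by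
    rw [circleIntegral, ← intervalIntegral.integral_const_mul]
    refine intervalIntegral.integral_congr fun φ _ => ?_
    show deriv (circleMap z ρ) φ • _ = _
    rw [deriv_circleMap]
    simp only [circleMap, smul_eq_mul, add_sub_cancel_left, Ic, zero_add]
    have hr : (ρ : ℂ) ≠ 0 := by exact_mod_cast hρ.ne'
    have e1 : cexp (-(m * φ * I)) = (cexp (φ * I) ^ m)⁻¹ := by
      rw [← Complex.exp_nat_mul, ← Complex.exp_neg]
      congr 1
      ring
    rw [e1, mul_pow, pow_succ, pow_succ]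
    have := Complex.exp_ne_zero (φ * I)
    field_simp
  rw [h2] at h1
  have h3 : (∫ φ in (0 : ℝ)..(2 * Real.pi), Ic F m ρ z φ) =
      AA F m ρ z + starRingEnd ℂ (AA F m ρ (starRingEnd ℂ z)) := by
    have hc := Ic_cont hF m ρ z
    rw [← intervalIntegral.integral_add_adjacent_intervals (b := Real.pi)
      (hc.intervalIntegrable _ _) (hc.intervalIntegrable _ _)]
    have h4 : (∫ φ in Real.pi..(2 * Real.pi), Ic F m ρ z φ) =
        ∫ φ in (0 : ℝ)..Real.pi, Ic F m ρ z (2 * Real.pi - φ) := by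
      rw [intervalIntegral.integral_comp_sub_left (fun φ => Ic F m ρ z φ) (2 * Real.pi)]
      congr 1 <;> ring
    rw [h4]
    have h5 : (∫ φ in (0 : ℝ)..Real.pi, Ic F m ρ z (2 * Real.pi - φ)) =
        ∫ φ in (0 : ℝ)..Real.pi, starRingEnd ℂ (Ic F m ρ (starRingEnd ℂ z) φ) := by
      refine intervalIntegral.integral_congr fun φ _ => ?_
      show Ic F m ρ z (2 * Real.pi - φ) = starRingEnd ℂ (Ic F m ρ (starRingEnd ℂ z) φ)
      rw [Ic_per, Ic_conj hsym]
    rw [h5]
    unfold AA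
    congr 1
    exact Complex.conjCLE.toContinuousLinearMap.intervalIntegral_comp_comm
      ((Ic_cont hF m ρ _).intervalIntegrable _ _)
  rw [h3, smul_eq_mul] at h1
  have hr : (ρ : ℂ) ≠ 0 := by exact_mod_cast hρ.ne'
  have hf : (m.factorial : ℂ) ≠ 0 := by exact_mod_cast m.factorial_ne_zero
  have hI := Complex.I_ne_zero
  field_simp at h1
  field_simp
  linear_combination -h1

/-- derivative of the half circle integral -/
lemma AA_deriv {F : ℂ → ℂ} (hF : Differentiable ℂ F) (m : ℕ) (ρ : ℝ) (z : ℂ) :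
    HasDerivAt (AA F m ρ) (AA (deriv F) m ρ z) z := by
  have hd : Differentiable ℂ (deriv F) := fun z => (hF.analyticAt z).deriv.differentiableAt
  -- bound on a compact set
  obtain ⟨B, hB⟩ := ((isCompact_closedBall z 1).prod (isCompact_Icc (a := (0 : ℝ)) (b := Real.pi))
    ).exists_bound_of_continuousOn (f := fun x : ℂ × ℝ => Ic (deriv F) m ρ x.1 x.2) (by
      apply Continuous.continuousOn
      unfold Ic
      have := hd.continuous
      fun_prop)
  have := (intervalIntegral.hasDerivAt_integral_of_dominated_loc_of_deriv_le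
    (μ := volume) (a := 0) (b := Real.pi)
    (F := fun z φ => Ic F m ρ z φ) (F' := fun z φ => Ic (deriv F) m ρ z φ)
    (x₀ := z) (bound := fun _ => B) (closedBall_mem_nhds z one_pos)
    (Eventually.of_forall fun x => (Ic_cont hF m ρ x).aestronglyMeasurable)
    ((Ic_cont hF m ρ z).intervalIntegrable _ _) (Ic_cont hd m ρ z).aestronglyMeasurable
    (Eventually.of_forall fun t ht x hx => hB (x, t) ⟨hx, ?_⟩)
    intervalIntegrable_const
    (Eventually.of_forall fun t _ x _ => ?_)).2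
  · exact this
  · rw [Set.uIoc_of_le Real.pi_pos.le] at ht
    exact Set.Ioc_subset_Icc_self ht
  · unfold Ic
    have h1 : HasDerivAt (fun x : ℂ => F (x + ρ * cexp (t * I)))
        (deriv F (x + ρ * cexp (t * I)) * 1) x :=
      HasDerivAt.comp x (hF (x + ρ * cexp (t * I))).hasDerivAt
        ((hasDerivAt_id x).add_const _)
    rw [mul_one] at h1
    exact h1.mul_const _

/-- integration by parts -/
lemma AA_parts {F : ℂ → ℂ} (hF : Differentiable ℂ F) (m : ℕ) {ρ : ℝ} (z : ℂ) :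
    I * ρ * AA (deriv F) m ρ z =
      (F (z - ρ) * cexp (-((m + 1) * Real.pi * I)) - F (z + ρ)) +
        I * (m + 1) * ∫ φ in (0 : ℝ)..Real.pi, Ic F m ρ z φ * cexp (-(φ * I)) := by
  have hd : Differentiable ℂ (deriv F) := fun z => (hF.analyticAt z).deriv.differentiableAt
  have hFc := hF.continuous
  have hdc := hd.continuous
  have hu : ∀ x ∈ Set.uIcc (0 : ℝ) Real.pi, HasDerivAt (fun φ : ℝ => F (z + ρ * cexp (φ * I)))
      (deriv F (z + ρ * cexp (x * I)) * (ρ * (cexp (x * I) * I))) x := by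
    intro x _
    have h1 : HasDerivAt (fun φ : ℝ => z + ρ * cexp (φ * I)) (ρ * (cexp (x * I) * I)) x := by
      have h2 : HasDerivAt (fun φ : ℝ => (φ : ℂ) * I) I x := by
        simpa using (Complex.ofRealCLM.hasDerivAt (x := x)).mul_const I
      exact ((h2.cexp).const_mul (ρ : ℂ)).const_add z
    have h3 := (hF (z + ρ * cexp (x * I))).hasDerivAt.scomp x h1
    refine h3.congr_deriv ?_
    rw [smul_eq_mul]; ring
  have hv : ∀ x ∈ Set.uIcc (0 : ℝ) Real.pi, HasDerivAt (fun φ : ℝ => cexp (-((m + 1) * φ * I)))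
      (cexp (-((m + 1) * x * I)) * (-((m + 1) * I))) x := by
    intro x _
    have h2 : HasDerivAt (fun φ : ℝ => -(((m : ℂ) + 1) * (φ : ℂ) * I)) (-((m + 1) * I)) x := by
      have h3 := (((Complex.ofRealCLM.hasDerivAt (x := x)).const_mul ((m : ℂ) + 1)).mul_const I).neg
      refine h3.congr_deriv ?_
      simp
    exact h2.cexp
  have key := intervalIntegral.integral_mul_deriv_eq_deriv_mul hu hv
    (Continuous.intervalIntegrable (by fun_prop) _ _)
    (Continuous.intervalIntegrable (by fun_prop) _ _)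
  have e1 : (∫ φ in (0 : ℝ)..Real.pi, F (z + ρ * cexp (φ * I)) *
      (cexp (-((m + 1) * φ * I)) * (-((m + 1) * I)))) =
      -(I * (m + 1)) * ∫ φ in (0 : ℝ)..Real.pi, Ic F m ρ z φ * cexp (-(φ * I)) := by
    rw [← intervalIntegral.integral_const_mul]
    refine intervalIntegral.integral_congr fun φ _ => ?_
    show F (z + ρ * cexp (φ * I)) * (cexp (-((m + 1) * φ * I)) * (-((m + 1) * I))) =
      -(I * (m + 1)) * (Ic F m ρ z φ * cexp (-(φ * I)))
    unfold Ic
    have : cexp (-((m + 1) * φ * I)) = cexp (-(m * φ * I)) * cexp (-(φ * I)) := by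
      rw [← Complex.exp_add]; congr 1; ring
    rw [this]
    ring
  have e2 : (∫ φ in (0 : ℝ)..Real.pi, deriv F (z + ρ * cexp (φ * I)) * (ρ * (cexp (φ * I) * I)) *
      cexp (-((m + 1) * φ * I))) = I * ρ * AA (deriv F) m ρ z := by
    unfold AA
    rw [← intervalIntegral.integral_const_mul]
    refine intervalIntegral.integral_congr fun φ _ => ?_
    show deriv F (z + ρ * cexp (φ * I)) * (ρ * (cexp (φ * I) * I)) * cexp (-((m + 1) * φ * I)) =
      I * ρ * Ic (deriv F) m ρ z φ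
    unfold Ic
    have : cexp (-(m * φ * I)) = cexp (φ * I) * cexp (-((m + 1) * φ * I)) := by
      rw [← Complex.exp_add]; congr 1; ring
    rw [this]
    ring
  rw [e1, e2] at key
  have e3 : cexp ((Real.pi : ℂ) * I) = -1 := Complex.exp_pi_mul_I
  rw [e3] at key
  simp only [ofReal_zero, zero_mul, Complex.exp_zero, mul_one, mul_zero, neg_zero] at key
  rw [show z + (ρ : ℂ) * -1 = z - ρ by ring] at key
  linear_combination key

/-- positivity of the derivative of the modulus gives the location of the zeros -/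
lemma zeros_of_pos {F : ℂ → ℂ} (hF : Differentiable ℂ F)
    (hsym : ∀ z, F (starRingEnd ℂ z) = starRingEnd ℂ (F z)) (m : ℕ) {ρ : ℝ} (hρ : 0 < ρ)
    {x Y : ℝ} (hpos : ∀ y : ℝ, |y| ≤ Y → 0 < (I * AA (deriv F) m ρ ⟨x, y⟩ *
      starRingEnd ℂ (AA F m ρ ⟨x, y⟩)).re) {y : ℝ} (hy : |y| ≤ Y)
    (hz : iteratedDeriv m F ⟨x, y⟩ = 0) : y = 0 ∧ iteratedDeriv (m + 1) F ⟨x, y⟩ ≠ 0 := by
  set N : ℝ → ℝ := fun y => ‖AA F m ρ ⟨x, y⟩‖ ^ 2 with hN
  have hder : ∀ y : ℝ, HasDerivAt N (2 * (I * AA (deriv F) m ρ ⟨x, y⟩ *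
      starRingEnd ℂ (AA F m ρ ⟨x, y⟩)).re) y := by
    intro y
    have h1 : HasDerivAt (fun y : ℝ => (⟨x, y⟩ : ℂ)) I y := by
      have e : (fun y : ℝ => (⟨x, y⟩ : ℂ)) = fun y : ℝ => (x : ℂ) + (y : ℂ) * I := by
        funext y; apply Complex.ext <;> simp
      rw [e]
      simpa using ((Complex.ofRealCLM.hasDerivAt (x := y)).mul_const I).const_add (x : ℂ)
    have h2 : HasDerivAt (fun y : ℝ => AA F m ρ ⟨x, y⟩) (AA (deriv F) m ρ ⟨x, y⟩ * I) y :=
      ((AA_deriv hF m ρ ⟨x, y⟩).scomp y h1).congr_deriv (by rw [smul_eq_mul]; ring)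
    have h3 : HasDerivAt (fun y : ℝ => (AA F m ρ ⟨x, y⟩).re) ((AA (deriv F) m ρ ⟨x, y⟩ * I).re) y :=
      Complex.reCLM.hasFDerivAt.comp_hasDerivAt y h2
    have h4 : HasDerivAt (fun y : ℝ => (AA F m ρ ⟨x, y⟩).im) ((AA (deriv F) m ρ ⟨x, y⟩ * I).im) y :=
      Complex.imCLM.hasFDerivAt.comp_hasDerivAt y h2
    have h5 := (h3.pow 2).add (h4.pow 2)
    have e : N = fun y : ℝ => (AA F m ρ ⟨x, y⟩).re ^ 2 + (AA F m ρ ⟨x, y⟩).im ^ 2 := by
      funext y
      rw [hN]
      simp only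
      rw [← Complex.normSq_eq_norm_sq, Complex.normSq_apply]
      ring
    rw [e]
    refine h5.congr_deriv ?_
    simp only [Complex.mul_re, Complex.mul_im, Complex.conj_re, Complex.conj_im, Complex.I_re,
      Complex.I_im]
    ring
  have hmono : StrictMonoOn N (Set.Icc (-Y) Y) := by
    refine strictMonoOn_of_deriv_pos (convex_Icc _ _)
      (fun y _ => (hder y).continuousAt.continuousWithinAt) ?_
    intro y hy
    rw [interior_Icc] at hy
    rw [(hder y).deriv]
    have := hpos y (abs_le.2 ⟨hy.1.le, hy.2.le⟩)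
    linarith
  have hkey : ∀ y : ℝ, |y| ≤ Y → iteratedDeriv m F ⟨x, y⟩ = 0 → N y = N (-y) := by
    intro y _ hz
    have h1 := cauchy_form hF hsym m hρ ⟨x, y⟩
    rw [hz, zero_mul] at h1
    have h2 : starRingEnd ℂ (⟨x, y⟩ : ℂ) = ⟨x, -y⟩ := rfl
    rw [h2] at h1
    have h3 : AA F m ρ ⟨x, y⟩ = -starRingEnd ℂ (AA F m ρ ⟨x, -y⟩) := by linear_combination -h1
    rw [hN]
    simp only
    rw [h3, norm_neg, Complex.norm_conj]
  have hy0 : y = 0 := by
    by_contra hne
    have h1 := hkey y hy hz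
    have hy1 : y ∈ Set.Icc (-Y) Y := abs_le.1 hy
    have hy2 : -y ∈ Set.Icc (-Y) Y := by
      rw [Set.mem_Icc] at hy1 ⊢
      constructor <;> linarith [hy1.1, hy1.2]
    have := hmono.injOn hy1 hy2 h1
    apply hne
    linarith
  refine ⟨hy0, ?_⟩
  subst hy0
  intro hz2
  have c1 := cauchy_form hF hsym m hρ ⟨x, 0⟩
  have hd : Differentiable ℂ (deriv F) := fun z => (hF.analyticAt z).deriv.differentiableAt
  have hsymd : ∀ z, deriv F (starRingEnd ℂ z) = starRingEnd ℂ (deriv F z) := by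
    intro z
    have h1 : HasDerivAt (starRingEnd ℂ ∘ F ∘ starRingEnd ℂ) (starRingEnd ℂ (deriv F z))
      (starRingEnd ℂ z) := (hF z).hasDerivAt.conj_conj
    have h2 : (starRingEnd ℂ ∘ F ∘ starRingEnd ℂ) = F := by
      funext w
      simp only [Function.comp_apply]
      rw [hsym, Complex.conj_conj]
    rw [h2] at h1
    exact h1.deriv
  have c2 := cauchy_form hd hsymd m hρ ⟨x, 0⟩
  have e : iteratedDeriv m (deriv F) = iteratedDeriv (m + 1) F := by
    rw [iteratedDeriv_succ']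
  rw [e, hz2, zero_mul] at c2
  rw [hz, zero_mul] at c1
  have h2 : starRingEnd ℂ (⟨x, 0⟩ : ℂ) = ⟨x, 0⟩ := by
    apply Complex.ext <;> simp
  rw [h2] at c1 c2
  have h3 := hpos 0 hy
  set a := AA F m ρ ⟨x, 0⟩
  set b := AA (deriv F) m ρ ⟨x, 0⟩
  have r1 : a.re = 0 := by
    have := congrArg Complex.re c1
    simp only [zero_re, add_re, conj_re] at this
    linarith
  have r2 : b.re = 0 := by
    have := congrArg Complex.re c2
    simp only [zero_re, add_re, conj_re] at this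
    linarith
  simp only [Complex.mul_re, Complex.mul_im, Complex.conj_re, Complex.conj_im, Complex.I_re,
      Complex.I_im, r1, r2] at h3
  norm_num at h3

end Pool.Agent.Helper75.Jen
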