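import Mathlib

set_option autoImplicit false
set_option maxHeartbeats 1000000

open Complex Filter Topology Metric MeasureTheory intervalIntegral

namespace Pool.Agent.Helper75.Jen

lemma gauss_le (c a : ℝ) (hc : 0 < c) :
    ∫ φ in (0 : ℝ)..Real.pi, Real.exp (-c * (φ - a) ^ 2) ≤ Real.sqrt (Real.pi / c) := by
  rw [intervalIntegral.integral_comp_sub_right (fun x => Real.exp (-c * x ^ 2)) a,
    intervalIntegral.integral_of_le (by linarith [Real.pi_pos]), ← integral_gaussian]
  exact setIntegral_le_integral (integrable_exp_neg_mul_sq hc)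
    (Eventually.of_forall fun x => (Real.exp_pos _).le)

lemma sqrt_bd {m : ℝ} (hm : 0 < m) : Real.sqrt (Real.pi / (3 / 40 * m)) ≤ 6.6 / Real.sqrt m := by
  rw [Real.sqrt_div' _ (by positivity), Real.sqrt_mul (by norm_num), div_le_div_iff₀ (by positivity)
    (by positivity)]
  have h1 : Real.sqrt Real.pi ≤ 6.6 * Real.sqrt (3 / 40) := by
    apply Real.sqrt_le_iff.2
    constructor
    · positivity
    · rw [mul_pow, Real.sq_sqrt (by norm_num)]
      have := Real.pi_lt_d2
      nlinarith
  have h2 := Real.sqrt_nonneg m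
  nlinarith

/-- the Laplace method -/
lemma laplace {I : ℝ → ℂ} {c : ℂ} {B m φ1 : ℝ} (hI : Continuous I) (hm : 100 ≤ m) (hB : 0 < B)
    (hc : ‖c‖ = 1) (h0 : 1 ≤ φ1) (h1 : φ1 ≤ Real.pi - 1)
    (hup : ∀ φ ∈ Set.Icc 0 Real.pi, ‖I φ‖ ≤ 11 / 10 * B * Real.exp (-(3 / 20) * m * (φ - φ1) ^ 2))
    (hlow : ∀ φ : ℝ, |φ - φ1| ≤ 8 / Real.sqrt m →
      9 / 10 * B * Real.exp (-(1 / 2) * m * (φ - φ1) ^ 2) ≤ (starRingEnd ℂ c * I φ).re) :
    B / Real.sqrt m ≤ ‖∫ φ in (0 : ℝ)..Real.pi, I φ‖ ∧
    ‖(∫ φ in (0 : ℝ)..Real.pi, I φ * cexp (-(φ * Complex.I))) -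
      cexp (-(φ1 * Complex.I)) * ∫ φ in (0 : ℝ)..Real.pi, I φ‖ ≤ 15 * B / m := by
  have hm0 : 0 < m := by linarith
  have hs : 0 < Real.sqrt m := Real.sqrt_pos.2 hm0
  have hss : Real.sqrt m ^ 2 = m := Real.sq_sqrt hm0.le
  have hpi := Real.pi_pos
  set s := Real.sqrt m with hsdef
  have hs10 : 10 ≤ s := by
    rw [hsdef]; apply Real.le_sqrt_of_sq_le; norm_num; exact hm
  -- pointwise minorant
  have hmin : ∀ φ ∈ Set.Icc 0 Real.pi,
      9 / 10 * B * Real.exp (-(1 / 2) * m * (φ - φ1) ^ 2) -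
        1 / 100 * B * Real.exp (-(3 / 40 * m) * (φ - φ1) ^ 2) ≤ (starRingEnd ℂ c * I φ).re := by
    intro φ hφ
    by_cases h : |φ - φ1| ≤ 8 / s
    · have := hlow φ h
      have h2 : 0 ≤ 1 / 100 * B * Real.exp (-(3 / 40 * m) * (φ - φ1) ^ 2) := by positivity
      linarith
    · push Not at h
      have h3 : 64 ≤ m * (φ - φ1) ^ 2 := by
        have h4 : 8 < |φ - φ1| * s := by rwa [div_lt_iff₀ hs] at h
        have h5 : (64 : ℝ) ≤ (|φ - φ1| * s) ^ 2 := by nlinarith
        rw [mul_pow, sq_abs, hss] at h5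
        linarith
      have h6 := hup φ hφ
      have h7 : -‖I φ‖ ≤ (starRingEnd ℂ c * I φ).re := by
        have h8 := Complex.abs_re_le_norm (starRingEnd ℂ c * I φ)
        rw [norm_mul, Complex.norm_conj, hc, one_mul] at h8
        exact (abs_le.1 h8).1
      set X := Real.exp (-(3 / 40 * m) * (φ - φ1) ^ 2) with hX
      have hX0 : 0 < X := Real.exp_pos _
      have e1 : Real.exp (-(3 / 20) * m * (φ - φ1) ^ 2) = Real.exp (-(3 / 40) * (m * (φ - φ1) ^ 2)) * X := by
        rw [hX, ← Real.exp_add]; congr 1; ring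
      have e2 : Real.exp (-(1 / 2) * m * (φ - φ1) ^ 2) = Real.exp (-(17 / 40) * (m * (φ - φ1) ^ 2)) * X := by
        rw [hX, ← Real.exp_add]; congr 1; ring
      have k4 : Real.exp (-(4.8 : ℝ)) ≤ 0.0085 := by
        have h9 : (2.7 : ℝ) ≤ Real.exp 1 := by linarith [Real.exp_one_gt_d9]
        have h10 : Real.exp 4.8 = Real.exp 0.8 * Real.exp 1 ^ 4 := by
          rw [← Real.exp_nat_mul, ← Real.exp_add]; norm_num
        have h11 : (2.22 : ℝ) ≤ Real.exp 0.8 := by
          have := Real.sum_le_exp_of_nonneg (x := 0.8) (by norm_num) 7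
          refine le_trans ?_ this
          norm_num [Finset.sum_range_succ, Nat.factorial]
        have h12 : (117.9 : ℝ) ≤ Real.exp 4.8 := by
          rw [h10]
          calc (117.9 : ℝ) ≤ 2.22 * 2.7 ^ 4 := by norm_num
            _ ≤ _ := by gcongr
        rw [Real.exp_neg]
        rw [inv_le_comm₀ (Real.exp_pos _) (by norm_num)]
        refine le_trans ?_ h12
        norm_num
      have k1 : Real.exp (-(3 / 40) * (m * (φ - φ1) ^ 2)) ≤ 0.0085 :=
        (Real.exp_le_exp.2 (by nlinarith)).trans k4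
      have k2 : Real.exp (-(17 / 40) * (m * (φ - φ1) ^ 2)) ≤ 0.0001 := by
        have k3 : Real.exp (-(17 / 40) * (m * (φ - φ1) ^ 2)) ≤ Real.exp (-(4.8 : ℝ)) ^ 2 := by
          rw [← Real.exp_nat_mul]
          apply Real.exp_le_exp.2
          push_cast
          nlinarith
        refine k3.trans ?_
        have : 0 < Real.exp (-(4.8 : ℝ)) := Real.exp_pos _
        nlinarith
      rw [e1] at h6
      rw [e2]
      have k5 : 11 / 10 * B * (Real.exp (-(3 / 40) * (m * (φ - φ1) ^ 2)) * X) ≤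
          11 / 10 * B * (0.0085 * X) := by gcongr
      have k6 : 9 / 10 * B * (Real.exp (-(17 / 40) * (m * (φ - φ1) ^ 2)) * X) ≤
          9 / 10 * B * (0.0001 * X) := by gcongr
      have k7 : 0 ≤ B * X := by positivity
      nlinarith
  have hc1 : Continuous fun φ : ℝ => Real.exp (-(1 / 2) * m * (φ - φ1) ^ 2) := by fun_prop
  have hc2 : Continuous fun φ : ℝ => Real.exp (-(3 / 40 * m) * (φ - φ1) ^ 2) := by fun_prop
  constructor
  · -- lower bound
    have hre : (starRingEnd ℂ c * ∫ φ in (0 : ℝ)..Real.pi, I φ).re =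
        ∫ φ in (0 : ℝ)..Real.pi, (starRingEnd ℂ c * I φ).re := by
      rw [← intervalIntegral.integral_const_mul]
      have := Complex.reCLM.intervalIntegral_comp_comm (μ := volume) (a := 0) (b := Real.pi)
        (f := fun φ => starRingEnd ℂ c * I φ) ((continuous_const.mul hI).intervalIntegrable _ _)
      exact this.symm
    have hge : (∫ φ in (0 : ℝ)..Real.pi, (9 / 10 * B * Real.exp (-(1 / 2) * m * (φ - φ1) ^ 2) -
        1 / 100 * B * Real.exp (-(3 / 40 * m) * (φ - φ1) ^ 2))) ≤
        ∫ φ in (0 : ℝ)..Real.pi, (starRingEnd ℂ c * I φ).re := by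
      refine intervalIntegral.integral_mono_on hpi.le ?_ ?_ hmin
      · exact Continuous.intervalIntegrable (by fun_prop) _ _
      · exact (Complex.continuous_re.comp (continuous_const.mul hI)).intervalIntegrable _ _
    rw [intervalIntegral.integral_sub (Continuous.intervalIntegrable (by fun_prop) _ _)
      (Continuous.intervalIntegrable (by fun_prop) _ _), intervalIntegral.integral_const_mul,
      intervalIntegral.integral_const_mul] at hge
    have hG2 := (gauss_le (3 / 40 * m) φ1 (by positivity)).trans (sqrt_bd hm0)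
    have hG1 : 1.6 / s ≤ ∫ φ in (0 : ℝ)..Real.pi, Real.exp (-(1 / 2) * m * (φ - φ1) ^ 2) := by
      have h1s : 1 / s ≤ 1 := by rw [div_le_one hs]; linarith
      have hmono : (∫ φ in (φ1 - 1 / s)..(φ1 + 1 / s), Real.exp (-(1 / 2) * m * (φ - φ1) ^ 2)) ≤
          ∫ φ in (0 : ℝ)..Real.pi, Real.exp (-(1 / 2) * m * (φ - φ1) ^ 2) := by
        refine intervalIntegral.integral_mono_interval (by linarith) ?_ (by linarith) ?_
          (hc1.intervalIntegrable _ _)
        · have : 0 < 1 / s := by positivity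
          linarith
        · exact Eventually.of_forall fun x => (Real.exp_pos _).le
      refine le_trans ?_ hmono
      have hpoly : (∫ φ in (φ1 - 1 / s)..(φ1 + 1 / s), (1 - 1 / 2 * m * (φ - φ1) ^ 2)) ≤
          ∫ φ in (φ1 - 1 / s)..(φ1 + 1 / s), Real.exp (-(1 / 2) * m * (φ - φ1) ^ 2) := by
        refine intervalIntegral.integral_mono_on ?_ ?_ (hc1.intervalIntegrable _ _) ?_
        · have : 0 < 1 / s := by positivity
          linarith
        · exact Continuous.intervalIntegrable (by fun_prop) _ _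
        · intro x _
          have := Real.add_one_le_exp (-(1 / 2) * m * (x - φ1) ^ 2)
          linarith
      refine le_trans ?_ hpoly
      rw [intervalIntegral.integral_comp_sub_right (fun x => 1 - 1 / 2 * m * x ^ 2) φ1]
      rw [show φ1 - 1 / s - φ1 = -(1 / s) by ring, show φ1 + 1 / s - φ1 = 1 / s by ring,
        intervalIntegral.integral_sub (Continuous.intervalIntegrable (by fun_prop) _ _)
        (Continuous.intervalIntegrable (by fun_prop) _ _), intervalIntegral.integral_const_mul,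
        integral_pow, intervalIntegral.integral_const]
      have e3 : m = s ^ 2 := hss.symm
      rw [e3]
      norm_num
      field_simp
      norm_num
    have hfin : B / s ≤ (starRingEnd ℂ c * ∫ φ in (0 : ℝ)..Real.pi, I φ).re := by
      rw [hre]
      refine le_trans ?_ hge
      have a1 : 9 / 10 * B * (1.6 / s) ≤
          9 / 10 * B * ∫ φ in (0 : ℝ)..Real.pi, Real.exp (-(1 / 2) * m * (φ - φ1) ^ 2) := by gcongr
      have a2 : 1 / 100 * B * (∫ φ in (0 : ℝ)..Real.pi, Real.exp (-(3 / 40 * m) * (φ - φ1) ^ 2)) ≤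
          1 / 100 * B * (6.6 / s) := by gcongr
      have a3 : B / s ≤ 9 / 10 * B * (1.6 / s) - 1 / 100 * B * (6.6 / s) := by
        have : 0 < B / s := by positivity
        have e4 : 9 / 10 * B * (1.6 / s) - 1 / 100 * B * (6.6 / s) = (B / s) * (1.44 - 0.066) := by
          ring
        rw [e4]
        nlinarith
      linarith
    refine hfin.trans ((Complex.re_le_norm _).trans ?_)
    rw [norm_mul, Complex.norm_conj, hc, one_mul]
  · -- the first moment
    have e5 : (∫ φ in (0 : ℝ)..Real.pi, I φ * cexp (-(φ * Complex.I))) -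
        cexp (-(φ1 * Complex.I)) * ∫ φ in (0 : ℝ)..Real.pi, I φ =
        ∫ φ in (0 : ℝ)..Real.pi, I φ * (cexp (-(φ * Complex.I)) - cexp (-(φ1 * Complex.I))) := by
      rw [← intervalIntegral.integral_const_mul, ← intervalIntegral.integral_sub]
      · congr 1
        funext φ
        ring
      · exact (hI.mul (by fun_prop)).intervalIntegrable _ _
      · exact (continuous_const.mul hI).intervalIntegrable _ _
    rw [e5]
    have hpt : ∀ φ ∈ Set.Ioc 0 Real.pi, ‖I φ * (cexp (-(φ * Complex.I)) - cexp (-(φ1 * Complex.I)))‖ ≤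
        11 / 5 * B / s * Real.exp (-(3 / 40 * m) * (φ - φ1) ^ 2) := by
      intro φ hφ
      have h2 := hup φ (Set.Ioc_subset_Icc_self hφ)
      have h3 : ‖cexp (-(φ * Complex.I)) - cexp (-(φ1 * Complex.I))‖ ≤ |φ - φ1| := by
        have e6 : cexp (-(φ * Complex.I)) - cexp (-(φ1 * Complex.I)) =
            cexp (-(φ1 * Complex.I)) * (cexp (((φ1 - φ : ℝ) : ℂ) * Complex.I) - 1) := by
          rw [mul_sub, mul_one, ← Complex.exp_add]
          congr 2
          push_cast
          ring
        rw [e6, norm_mul]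
        have e7 : ‖cexp (-(φ1 * Complex.I))‖ = 1 := by
          rw [show (-(φ1 * Complex.I) : ℂ) = ((-φ1 : ℝ) : ℂ) * Complex.I by push_cast; ring,
            Complex.norm_exp_ofReal_mul_I]
        rw [e7, one_mul, mul_comm]
        refine (Real.norm_exp_I_mul_ofReal_sub_one_le (x := φ1 - φ)).trans ?_
        rw [Real.norm_eq_abs, abs_sub_comm]
      have h4 : |φ - φ1| ≤ 2 / s * Real.exp (3 / 40 * m * (φ - φ1) ^ 2) := by
        have h5 := Real.add_one_le_exp (3 / 40 * m * (φ - φ1) ^ 2)
        rw [div_mul_eq_mul_div, le_div_iff₀ hs]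
        have h6 : (|φ - φ1| * s) ^ 2 = m * (φ - φ1) ^ 2 := by
          rw [mul_pow, sq_abs, hss]; ring
        nlinarith [sq_nonneg (|φ - φ1| * s - 10 / 3)]
      rw [norm_mul]
      calc ‖I φ‖ * ‖cexp (-(φ * Complex.I)) - cexp (-(φ1 * Complex.I))‖ ≤
          (11 / 10 * B * Real.exp (-(3 / 20) * m * (φ - φ1) ^ 2)) *
            (2 / s * Real.exp (3 / 40 * m * (φ - φ1) ^ 2)) :=
            mul_le_mul h2 (h3.trans h4) (norm_nonneg _) (by positivity)
        _ = 11 / 5 * B / s * (Real.exp (-(3 / 20) * m * (φ - φ1) ^ 2) *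
            Real.exp (3 / 40 * m * (φ - φ1) ^ 2)) := by ring
        _ = _ := by rw [← Real.exp_add]; congr 2; ring
    refine (intervalIntegral.norm_integral_le_of_norm_le hpi.le
      (Eventually.of_forall hpt) (Continuous.intervalIntegrable (by fun_prop) _ _)).trans ?_
    rw [intervalIntegral.integral_const_mul]
    have hG2 := (gauss_le (3 / 40 * m) φ1 (by positivity)).trans (sqrt_bd hm0)
    calc 11 / 5 * B / s * ∫ φ in (0 : ℝ)..Real.pi, Real.exp (-(3 / 40 * m) * (φ - φ1) ^ 2) ≤
        11 / 5 * B / s * (6.6 / s) := by gcongr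
      _ = 14.52 * B / s ^ 2 := by ring
      _ ≤ 15 * B / m := by
          rw [hss]
          gcongr
          norm_num

end Pool.Agent.Helper75.Jen
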