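import Pool.Agent.Helper75.Jen.Main
import Pool.Graph.R_seed8.H306R2.ZetaGrowth

set_option autoImplicit false
set_option maxHeartbeats 1000000

open Complex Filter Topology Metric

namespace Pool.Agent.Helper75.Jen

/-- `(4 w^2 - 1) Λ(1/2 + w)`, completed to an entire function -/
noncomputable def fx (w : ℂ) : ℂ := (4 * w ^ 2 - 1) * completedRiemannZeta₀ (1 / 2 + w) + 4

/-- the Gamma part -/
noncomputable def Gx (w : ℂ) : ℂ := (4 * w ^ 2 - 1) * Gammaℝ (1 / 2 + w)

lemma fx_diff : Differentiable ℂ fx := by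
  intro w
  unfold fx
  have h : DifferentiableAt ℂ (fun w => completedRiemannZeta₀ (1 / 2 + w)) w :=
    (differentiable_completedZeta₀ (1 / 2 + w)).comp w (by fun_prop)
  fun_prop

lemma fx_even (w : ℂ) : fx (-w) = fx w := by
  unfold fx
  have : completedRiemannZeta₀ (1 / 2 + -w) = completedRiemannZeta₀ (1 / 2 + w) := by
    rw [← completedRiemannZeta₀_one_sub]
    congr 1
    ring
  rw [this]
  ring

lemma fx_eq_completed {w : ℂ} (h1 : w ≠ 1 / 2) (h2 : w ≠ -(1 / 2)) :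
    fx w = (4 * w ^ 2 - 1) * completedRiemannZeta (1 / 2 + w) := by
  unfold fx
  rw [completedRiemannZeta_eq]
  have a1 : (1 / 2 + w : ℂ) ≠ 0 := by
    intro h
    apply h2
    linear_combination h
  have a2 : (1 - (1 / 2 + w) : ℂ) ≠ 0 := by
    intro h
    apply h1
    linear_combination -h
  have e : (4 * w ^ 2 - 1) = -4 * (1 / 2 + w) * (1 - (1 / 2 + w)) := by ring
  rw [e]
  generalize (1 / 2 + w) = s at *
  field_simp
  ring

lemma fx_eq {w : ℂ} (hw : -(1 / 2) < w.re) (h1 : w ≠ 1 / 2) :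
    fx w = Gx w * riemannZeta (1 / 2 + w) := by
  have hre : 0 < (1 / 2 + w).re := by
    simp only [add_re]
    norm_num
    linarith
  have h0 : (1 / 2 + w : ℂ) ≠ 0 := by
    intro h
    rw [h] at hre
    simp at hre
  rw [fx_eq_completed h1 (by rintro rfl; norm_num at hw), riemannZeta_def_of_ne_zero h0, Gx]
  have := Gammaℝ_ne_zero_of_re_pos hre
  rw [mul_assoc, mul_div_assoc', mul_div_cancel_left₀ _ this]

lemma GammaR_conj (s : ℂ) : Gammaℝ ((starRingEnd ℂ) s) = (starRingEnd ℂ) (Gammaℝ s) := by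
  rw [Gammaℝ_def, Gammaℝ_def, map_mul, ← Complex.Gamma_conj]
  congr 1
  · have h := Complex.cpow_conj (Real.pi : ℂ) (-s / 2) (by
      rw [Complex.arg_ofReal_of_nonneg Real.pi_pos.le]; exact Real.pi_pos.ne)
    rw [Complex.conj_ofReal] at h
    rw [← h]
    congr 1
    rw [map_div₀, map_neg, Complex.conj_ofNat]
  · congr 1
    rw [map_div₀, Complex.conj_ofNat]

lemma half_conj (w : ℂ) : (starRingEnd ℂ) (1 / 2 + w) = 1 / 2 + (starRingEnd ℂ) w := by
  rw [map_add, map_div₀, map_one, Complex.conj_ofNat]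

lemma Gx_conj (w : ℂ) : Gx (starRingEnd ℂ w) = starRingEnd ℂ (Gx w) := by
  unfold Gx
  rw [map_mul, ← GammaR_conj, half_conj]
  congr 1
  simp [Complex.conj_ofNat]

lemma fx_conj (w : ℂ) : fx (starRingEnd ℂ w) = starRingEnd ℂ (fx w) := by
  have hd : Differentiable ℂ (fun w => starRingEnd ℂ (fx (starRingEnd ℂ w))) := by
    intro z
    have h3 := (fx_diff (starRingEnd ℂ z)).conj_conj
    rw [Complex.conj_conj] at h3
    exact h3
  have heq : (fun w => starRingEnd ℂ (fx (starRingEnd ℂ w))) = fx := by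
    refine AnalyticOnNhd.eq_of_eventuallyEq (z₀ := (1 : ℂ)) (fun z _ => hd.analyticAt z)
      (fun z _ => fx_diff.analyticAt z) ?_
    have h1 : {z : ℂ | 1 / 2 < z.re} ∈ 𝓝 (1 : ℂ) :=
      (isOpen_lt continuous_const Complex.continuous_re).mem_nhds (by simp; norm_num)
    filter_upwards [h1] with z hz
    have hz' : 1 / 2 < z.re := hz
    have hne : z ≠ 1 / 2 := by rintro rfl; norm_num at hz'
    have hne2 : starRingEnd ℂ z ≠ 1 / 2 := by
      intro h
      have := congrArg Complex.re h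
      rw [Complex.conj_re] at this
      norm_num at this
      linarith
    rw [fx_eq (by linarith) hne, fx_eq (by rw [Complex.conj_re]; linarith) hne2, map_mul, Gx_conj,
      Complex.conj_conj, ← riemannZeta_conj, half_conj, Complex.conj_conj]
  have : starRingEnd ℂ (fx (starRingEnd ℂ w)) = fx w := congrFun heq w
  rw [← this, Complex.conj_conj]

lemma Gx_ne {w : ℂ} (hw : -(1 / 2) < w.re) (h1 : w ≠ 1 / 2) : Gx w ≠ 0 := by
  have hre : 0 < (1 / 2 + w).re := by
    simp only [add_re]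
    norm_num
    linarith
  have := Gammaℝ_ne_zero_of_re_pos hre
  refine mul_ne_zero ?_ this
  intro h
  have h2 : (w - 1 / 2) * (w + 1 / 2) = 0 := by linear_combination h / 4
  rcases mul_eq_zero.1 h2 with h3 | h3
  · exact h1 (sub_eq_zero.1 h3)
  · have h4 : w = -(1 / 2) := by linear_combination h3
    rw [h4] at hw
    norm_num at hw

lemma fx_zero_re {w : ℂ} (h : fx w = 0) : |w.re| < 1 / 2 := by
  have key : ∀ w : ℂ, 1 / 2 ≤ w.re → fx w ≠ 0 := by
    intro w hw h0
    by_cases h1 : w = 1 / 2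
    · rw [h1] at h0
      unfold fx at h0
      norm_num at h0
    · rw [fx_eq (by linarith) h1] at h0
      rcases mul_eq_zero.1 h0 with h2 | h2
      · exact Gx_ne (by linarith) h1 h2
      · refine riemannZeta_ne_zero_of_one_le_re ?_ h2
        simp only [add_re]
        norm_num
        linarith
  by_contra hcon
  push Not at hcon
  rcases le_abs'.1 hcon with h1 | h1
  · refine key (-w) ?_ (by rw [fx_even]; exact h)
    simp only [neg_re]
    linarith
  · exact key w h1 h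

/-! ### the function of the square -/

/-- `F(w^2) = fx w` -/
noncomputable def FF (z : ℂ) : ℂ := fx (z ^ (1 / 2 : ℂ))

lemma cpow_half_sq (z : ℂ) : (z ^ (1 / 2 : ℂ)) ^ 2 = z := by
  rw [← Complex.cpow_nat_mul]
  norm_num

lemma FF_eq {z w : ℂ} (h : w ^ 2 = z) : FF z = fx w := by
  unfold FF
  have h1 : (z ^ (1 / 2 : ℂ)) ^ 2 = w ^ 2 := by rw [cpow_half_sq, h]
  rcases sq_eq_sq_iff_eq_or_eq_neg.1 h1 with h2 | h2
  · rw [h2]
  · rw [h2, fx_even]

lemma FF_sq (w : ℂ) : FF (w ^ 2) = fx w := FF_eq rfl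

lemma FF_diff : Differentiable ℂ FF := by
  have hne : ∀ z : ℂ, z ≠ 0 → DifferentiableAt ℂ FF z := by
    intro z hz
    by_cases hs : z ∈ slitPlane
    · have h1 : DifferentiableAt ℂ (fun z : ℂ => z ^ (1 / 2 : ℂ)) z :=
        (differentiableAt_id).cpow_const hs
      exact (fx_diff _).comp z h1
    · have hs' : -z ∈ slitPlane := by
        rw [Complex.mem_slitPlane_iff] at hs ⊢
        push Not at hs
        obtain ⟨h1, h2⟩ := hs
        left
        rw [neg_re]
        rcases lt_or_eq_of_le h1 with h3 | h3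
        · linarith
        · exfalso
          apply hz
          apply Complex.ext
          · rw [h3]; rfl
          · rw [h2]; rfl
      have h1 : DifferentiableAt ℂ (fun z : ℂ => I * (-z) ^ (1 / 2 : ℂ)) z := by
        have : DifferentiableAt ℂ (fun z : ℂ => (-z) ^ (1 / 2 : ℂ)) z :=
          (differentiableAt_id.neg).cpow_const hs'
        exact this.const_mul I
      have h2 : FF = fun z => fx (I * (-z) ^ (1 / 2 : ℂ)) := by
        funext x
        refine FF_eq ?_
        rw [mul_pow, I_sq, cpow_half_sq]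
        ring
      rw [h2]
      exact (fx_diff _).comp z h1
  intro z
  by_cases hz : z = 0
  · subst hz
    refine (Complex.analyticAt_of_differentiable_on_punctured_nhds_of_continuousAt ?_ ?_).differentiableAt
    · filter_upwards [self_mem_nhdsWithin] with x hx
      exact hne x hx
    · -- continuity at zero
      have h0 : FF 0 = fx 0 := FF_eq (by norm_num)
      rw [Metric.continuousAt_iff]
      intro ε hε
      obtain ⟨δ, hδ, hd⟩ := Metric.continuousAt_iff.1 (fx_diff.continuous.continuousAt (x := (0 : ℂ))) ε hε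
      refine ⟨δ ^ 2, by positivity, ?_⟩
      intro x hx
      rw [h0]
      unfold FF
      apply hd
      rw [dist_zero_right] at hx ⊢
      have h1 : ‖x ^ (1 / 2 : ℂ)‖ ^ 2 = ‖x‖ := by rw [← norm_pow, cpow_half_sq]
      rw [← h1] at hx
      exact lt_of_pow_lt_pow_left₀ 2 hδ.le hx
  · exact hne z hz

lemma FF_conj (z : ℂ) : FF (starRingEnd ℂ z) = starRingEnd ℂ (FF z) := by
  have h1 : (starRingEnd ℂ (z ^ (1 / 2 : ℂ))) ^ 2 = starRingEnd ℂ z := by
    rw [← map_pow, cpow_half_sq]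
  rw [FF_eq h1, fx_conj]
  rfl

lemma FF_roots (z : ℂ) (h : FF z = 0) : z ∈ KK := by
  set w := z ^ (1 / 2 : ℂ) with hw
  have h1 : fx w = 0 := h
  have h2 := fx_zero_re h1
  have h3 : z = w ^ 2 := (cpow_half_sq z).symm
  have h4 : w.re ^ 2 ≤ 1 / 4 := by
    have := abs_lt.1 h2
    nlinarith [this.1, this.2]
  rw [h3]
  simp only [KK, Set.mem_ofPred_eq, sq, mul_re, mul_im]
  nlinarith [sq_nonneg w.im, mul_nonneg (sq_nonneg w.im) (sub_nonneg.2 h4)]

lemma FF_one : 0 < (FF 1).re := by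
  rw [FF_eq (w := 1) (by norm_num), fx_eq (by norm_num) (by norm_num)]
  have h1 : (1 / 2 + 1 : ℂ) = ((3 / 2 : ℝ) : ℂ) := by push_cast; norm_num
  rw [Gx, h1, Gammaℝ_def]
  have h2 := riemannZeta_re_pos_of_one_lt (x := 3 / 2) (by norm_num)
  have h3 : ((Real.pi : ℂ) ^ (-((3 / 2 : ℝ) : ℂ) / 2) * Complex.Gamma (((3 / 2 : ℝ) : ℂ) / 2)) =
      ((Real.pi ^ (-(3 / 2 : ℝ) / 2) * Real.Gamma ((3 / 2) / 2) : ℝ) : ℂ) := by
    rw [Complex.ofReal_mul, Complex.ofReal_cpow Real.pi_pos.le, ← Complex.Gamma_ofReal]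
    push_cast
    rfl
  rw [h3]
  have h4 : (4 * (1 : ℂ) ^ 2 - 1) = ((3 : ℝ) : ℂ) := by push_cast; norm_num
  rw [h4, ← Complex.ofReal_mul, Complex.re_ofReal_mul]
  have h5 : 0 < Real.Gamma ((3 / 2) / 2) := Real.Gamma_pos_of_pos (by norm_num)
  have h6 : 0 < Real.pi ^ (-(3 / 2 : ℝ) / 2) := Real.rpow_pos_of_pos Real.pi_pos _
  positivity

/-! ### zeta to the right -/

lemma zeta_sub_one {s : ℂ} (hs : 2 ≤ s.re) : ‖riemannZeta s - 1‖ ≤ (2 : ℝ) ^ (2 - s.re) := by
  have hs1 : 1 < s.re := by linarith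
  have hz : riemannZeta s = ∑' n : ℕ, 1 / (n + 1 : ℂ) ^ s := zeta_eq_tsum_one_div_nat_add_one_cpow hs1
  have hsum : Summable (fun n : ℕ => 1 / (n + 1 : ℂ) ^ s) := by
    have h := (Complex.summable_one_div_nat_cpow (p := s)).2 hs1
    have h' := (summable_nat_add_iff 1).2 h
    simpa using h'
  have h0 : riemannZeta s - 1 = ∑' n : ℕ, 1 / ((n + 1 : ℕ) + 1 : ℂ) ^ s := by
    rw [hz, hsum.tsum_eq_zero_add]
    simp
  have hR : HasSum (fun n : ℕ => 1 / (n : ℝ) ^ 2) (Real.pi ^ 2 / 6) := hasSum_zeta_two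
  have hR2 : HasSum (fun n : ℕ => 1 / ((n + 2 : ℕ) : ℝ) ^ 2) (Real.pi ^ 2 / 6 - 1) := by
    have := (hasSum_nat_add_iff' (f := fun n : ℕ => 1 / (n : ℝ) ^ 2) 2).2 hR
    simpa [Finset.sum_range_succ] using this
  have hR3 := hR2.mul_left ((2 : ℝ) ^ (2 - s.re))
  have hpi : Real.pi ^ 2 / 6 - 1 ≤ 1 := by
    have : Real.pi < 3.15 := Real.pi_lt_d2
    nlinarith [Real.pi_pos]
  rw [h0]
  refine (tsum_of_norm_bounded hR3 ?_).trans ?_
  · intro n
    rw [norm_div, norm_one]
    have e : (((n + 1 : ℕ) : ℂ) + 1) = (((n + 2 : ℕ) : ℝ) : ℂ) := by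
      push_cast; ring
    rw [e, Complex.norm_cpow_eq_rpow_re_of_pos (by positivity)]
    have hn2 : (2 : ℝ) ≤ ((n + 2 : ℕ) : ℝ) := by push_cast; linarith [(Nat.cast_nonneg n : (0:ℝ) ≤ n)]
    have h2 : ((n + 2 : ℕ) : ℝ) ^ 2 * (2 : ℝ) ^ (s.re - 2) ≤ ((n + 2 : ℕ) : ℝ) ^ s.re := by
      calc ((n + 2 : ℕ) : ℝ) ^ 2 * (2 : ℝ) ^ (s.re - 2) ≤
          ((n + 2 : ℕ) : ℝ) ^ 2 * ((n + 2 : ℕ) : ℝ) ^ (s.re - 2) := by
            refine mul_le_mul_of_nonneg_left ?_ (by positivity)
            exact Real.rpow_le_rpow (by norm_num) hn2 (by linarith)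
        _ = _ := by
            rw [← Real.rpow_natCast, ← Real.rpow_add (by positivity)]
            congr 1
            push_cast
            ring
    have e2 : (2 : ℝ) ^ (2 - s.re) = ((2 : ℝ) ^ (s.re - 2))⁻¹ := by
      rw [← Real.rpow_neg (by norm_num)]; congr 1; ring
    rw [e2, one_div, one_div, ← mul_inv, mul_comm]
    apply inv_anti₀ (by positivity) h2
  · calc (2 : ℝ) ^ (2 - s.re) * (Real.pi ^ 2 / 6 - 1) ≤ (2 : ℝ) ^ (2 - s.re) * 1 := by gcongr
      _ = _ := mul_one _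

end Pool.Agent.Helper75.Jen
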